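import Mathlib

/-!
# A long linear order, and functions on an uncountable index set
-/

open Set Cardinal

namespace Pool.Agent.Q151.Plank

/-- the index set -/
abbrev I : Type := ℝ

/-- a well-ordered set of regular cardinality larger than the number of subsets of `I` -/
def S : Type := (Order.succ #(Set I)).ord.ToType

noncomputable instance : LinearOrder S :=
  inferInstanceAs (LinearOrder (Order.succ #(Set I)).ord.ToType)

instance : WellFoundedLT S :=
  inferInstanceAs (WellFoundedLT (Order.succ #(Set I)).ord.ToType)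

lemma mk_S : #S = Order.succ #(Set I) := mk_ord_toType _

lemma mk_Iio_S (x : S) : #(Iio x) ≤ #(Set I) := by
  have := mk_Iio_lt (α := S) x (by
    rw [mk_S]
    exact (Ordinal.type_toType _).symm)
  rw [mk_S] at this
  exact Order.lt_succ_iff.1 this

lemma aleph0_le : ℵ₀ ≤ #(Set I) := by
  rw [mk_set]
  exact (aleph0_le_mk I).trans (cantor _).le

lemma mk_Iic_S (x : S) : #(Iic x) ≤ #(Set I) := by
  have h5 : (Iic x : Set S) ⊆ insert x (Iio x) := by
    intro t ht
    rcases eq_or_lt_of_le (mem_Iic.1 ht) with h | h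
    · exact Or.inl h
    · exact Or.inr h
  calc #(Iic x) ≤ #(insert x (Iio x) : Set S) := mk_le_mk_of_subset h5
    _ ≤ #(Iio x) + 1 := mk_insert_le
    _ ≤ #(Set I) + 1 := by gcongr; exact mk_Iio_S x
    _ = #(Set I) := add_one_eq aleph0_le

/-- families indexed by the subsets of `I` are bounded -/
lemma S_bdd' (f : Set I → S) : ∃ b, ∀ a, f a ≤ b := by
  by_contra hcon
  push Not at hcon
  have h1 : (Set.univ : Set S) ⊆ ⋃ a, Iic (f a) := by
    intro b _
    obtain ⟨a, ha⟩ := hcon b
    exact mem_iUnion.2 ⟨a, ha.le⟩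
  have h2 : #S ≤ #(Set I) := by
    calc #S = #(Set.univ : Set S) := mk_univ.symm
      _ ≤ #(⋃ a, Iic (f a) : Set S) := mk_le_mk_of_subset h1
      _ ≤ #(Set I) * ⨆ a, #(Iic (f a)) := mk_iUnion_le _
      _ ≤ #(Set I) * #(Set I) := by
          gcongr
          exact ciSup_le' fun a => mk_Iic_S _
      _ = #(Set I) := mul_eq_self aleph0_le
  rw [mk_S] at h2
  exact absurd h2 (not_le.2 (Order.lt_succ _))

instance : Nonempty S := by
  rw [← mk_ne_zero_iff, mk_S]
  exact (lt_of_le_of_lt zero_le (Order.lt_succ _)).ne'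

lemma S_exists_gt (x : S) : ∃ y, x < y := by
  by_contra hcon
  push Not at hcon
  have h1 : (Set.univ : Set S) ⊆ Iic x := fun y _ => hcon y
  have h2 : #S ≤ #(Set I) := by
    calc #S = #(Set.univ : Set S) := mk_univ.symm
      _ ≤ #(Iic x) := mk_le_mk_of_subset h1
      _ ≤ #(Set I) := mk_Iic_S x
  rw [mk_S] at h2
  exact absurd h2 (not_le.2 (Order.lt_succ _))

/-- a base value -/
noncomputable def s₀ : S := Classical.arbitrary S

/-- a larger element -/
noncomputable def nx (x : S) : S := (S_exists_gt x).choose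

lemma lt_nx (x : S) : x < nx x := (S_exists_gt x).choose_spec

lemma S_bdd (f : Finset I → S) : ∃ b, ∀ a, f a ≤ b := by
  classical
  obtain ⟨b, hb⟩ := S_bdd' (fun t => if h : t.Finite then f h.toFinset else s₀)
  refine ⟨b, fun a => ?_⟩
  have := hb (a : Set I)
  rwa [dif_pos a.finite_toSet, Finset.finite_toSet_toFinset] at this

/-- pigeonhole: one value is attained cofinally -/
lemma S_pigeon (g : S → Set I) : ∃ T, ∀ w, ∃ w' ≥ w, g w' = T := by
  classical
  by_contra hcon
  push Not at hcon
  choose b hb using hcon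
  obtain ⟨c, hc⟩ := S_bdd' b
  exact hb (g c) c (hc _) rfl

lemma exists_ge (x y : S) : ∃ z, x ≤ z ∧ y ≤ z := ⟨max x y, le_max_left _ _, le_max_right _ _⟩

lemma exists_bd (a : Finset I) (s : I → S) : ∃ w, ∀ i ∈ a, s i ≤ w := by
  classical
  by_cases h : a.Nonempty
  · exact ⟨a.sup' h s, fun i hi => Finset.le_sup' s hi⟩
  · exact ⟨s₀, fun i hi => absurd ⟨i, hi⟩ h⟩

end Pool.Agent.Q151.Plank
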