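import Pool.Agent.Q151.Plank.Z

/-!
# A paracompact subspace filling the finite subproducts
-/

open Set Filter Topology

universe u v

namespace Pool.Agent.Q151.Plank

/-- `D` fills all finite subproducts of `∏ X i`: for each nonempty finite set `J` of indices
every point of `∏_{i ∈ J} X i` is the projection of a point of `D`. -/
def FillsFinite {I : Type u} {X : I → Type v} (D : Set (∀ i, X i)) : Prop :=
  ∀ J : Set I, J.Nonempty → J.Finite → ∀ x : (∀ i : J, X i), ∃ d ∈ D, ∀ i : J, d i = x i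

theorem paracompact_of {Z : Type u} [TopologicalSpace Z] [RegularSpace Z] {T : Type v}
    (g : ℕ → Z → T) (hg : ∀ k s, IsOpen (g k ⁻¹' {s})) (P : ℕ → Set Z)
    (hinj : ∀ k, InjOn (g k) (P k)) (hcov : ∀ z, ∃ k, z ∈ P k) : ParacompactSpace Z := by
  classical
  refine ⟨fun α s hs hc => ?_⟩
  have h0 : ∀ z, ∃ a, z ∈ s a := fun z => mem_iUnion.1 (hc ▸ mem_univ z)
  choose a ha using h0
  set U : ℕ → Z → Set Z := fun k z => s (a z) ∩ g k ⁻¹' {g k z} with hUdef
  have hU : ∀ k z, IsOpen (U k z) := fun k z => (hs _).inter (hg _ _)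
  have hzU : ∀ k z, z ∈ U k z := fun k z => ⟨ha z, rfl⟩
  have h1 : ∀ k z, ∃ C ∈ 𝓝 z, IsClosed C ∧ C ⊆ U k z := fun k z =>
    exists_mem_nhds_isClosed_subset ((hU k z).mem_nhds (hzU k z))
  choose C hCn hCc hCU using h1
  set CC : ℕ → Set Z := fun k => ⋃ z : P k, C k z with hCC
  have hCCc : ∀ k, IsClosed (CC k) := by
    intro k
    refine LocallyFinite.isClosed_iUnion (fun p => ?_) fun z => hCc k z
    refine ⟨g k ⁻¹' {g k p}, (hg k _).mem_nhds rfl, ?_⟩
    refine Set.Subsingleton.finite ?_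
    rintro z ⟨x, hx, hxp⟩ z' ⟨x', hx', hxp'⟩
    have e1 := (hCU k z hx).2
    have e2 := (hCU k z' hx').2
    simp only [mem_preimage, mem_singleton_iff] at e1 e2 hxp hxp'
    refine Subtype.ext (hinj k z.2 z'.2 ?_)
    rw [← e1, hxp, ← hxp', e2]
  refine ⟨{q : ℕ × Z // q.2 ∈ P q.1}, fun q => U q.1.1 q.1.2 \ ⋃ j ∈ Iio q.1.1, CC j, ?_, ?_, ?_, ?_⟩
  · intro q
    exact (hU _ _).sdiff ((finite_Iio _).isClosed_biUnion fun j _ => hCCc j)
  · refine eq_univ_iff_forall.2 fun p => ?_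
    have hex : ∃ k, ∃ z ∈ P k, p ∈ U k z := by
      obtain ⟨k, hk⟩ := hcov p
      exact ⟨k, p, hk, hzU k p⟩
    obtain ⟨z, hz, hpz⟩ := Nat.find_spec hex
    refine mem_iUnion.2 ⟨⟨(Nat.find hex, z), hz⟩, hpz, ?_⟩
    intro hcon
    obtain ⟨j, hj, hpj⟩ := mem_iUnion₂.1 hcon
    obtain ⟨z', hz'⟩ := mem_iUnion.1 hpj
    exact Nat.find_min hex hj ⟨z', z'.2, hCU _ _ hz'⟩
  · intro p
    obtain ⟨k, hk⟩ := hcov p
    refine ⟨C k p ∩ ⋂ j ∈ Iic k, g j ⁻¹' {g j p}, inter_mem (hCn k p) ?_, ?_⟩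
    · refine ((finite_Iic k).isOpen_biInter fun j _ => hg j _).mem_nhds ?_
      exact mem_iInter₂.2 fun j _ => rfl
    · refine Set.Finite.of_injOn (f := fun q : {q : ℕ × Z // q.2 ∈ P q.1} => q.1.1) (t := Iic k)
        ?_ ?_ (finite_Iic k)
      · rintro q ⟨x, ⟨hx1, hx2⟩, hx3, hx4⟩
        by_contra hcon
        have hlt : k < q.1.1 := not_le.1 hcon
        exact hx2 (mem_iUnion₂.2 ⟨k, hlt, mem_iUnion.2 ⟨⟨p, hk⟩, hx3⟩⟩)
      · have key : ∀ q : {q : ℕ × Z // q.2 ∈ P q.1},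
            ((U q.1.1 q.1.2 \ ⋃ j ∈ Iio q.1.1, CC j) ∩
              (C k p ∩ ⋂ j ∈ Iic k, g j ⁻¹' {g j p})).Nonempty → g q.1.1 q.1.2 = g q.1.1 p := by
          rintro q ⟨x, ⟨hx1, hx2⟩, hx3, hx4⟩
          have hle : q.1.1 ≤ k := by
            by_contra hcon
            have hlt : k < q.1.1 := not_le.1 hcon
            exact hx2 (mem_iUnion₂.2 ⟨k, hlt, mem_iUnion.2 ⟨⟨p, hk⟩, hx3⟩⟩)
          have e1 := hx1.2
          have e2 := mem_iInter₂.1 hx4 q.1.1 hle
          simp only [mem_preimage, mem_singleton_iff] at e1 e2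
          rw [← e1, e2]
        rintro ⟨⟨m, z⟩, hz⟩ hq ⟨⟨m', z'⟩, hz'⟩ hq' hmm
        have hmm' : m = m' := hmm
        subst hmm'
        have e1 := key _ hq
        have e2 := key _ hq'
        have : z = z' := hinj m hz hz' (e1.trans e2.symm)
        subst this
        rfl
  · intro q
    exact ⟨a q.1.2, sdiff_subset.trans inter_subset_left⟩

/-- the factors: the plank, and discrete spaces -/
def XN (_ : ℕ) : Type := Z

instance : ∀ n, TopologicalSpace (XN n)
  | 0 => inferInstanceAs (TopologicalSpace Z)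
  | _ + 1 => ⊥

lemma reg_XN : ∀ n, RegularSpace (XN n)
  | 0 => inferInstanceAs (RegularSpace Z)
  | n + 1 => by
    have : DiscreteTopology (XN (n + 1)) := ⟨rfl⟩
    infer_instance

lemma t1_XN : ∀ n, T1Space (XN n)
  | 0 => inferInstanceAs (T1Space Z)
  | n + 1 => by
    have : DiscreteTopology (XN (n + 1)) := ⟨rfl⟩
    infer_instance

instance : Infinite Z := Infinite.of_injective Z.B (fun a b h => by cases h; rfl)

open Cardinal in
lemma exists_code (k : ℕ) : ∃ c : (Fin (k + 1) → Z) → Z, Function.Injective c := by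
  have h1 : #(Fin (k + 1) → Z) ≤ #Z := by
    have h2 : #(Fin (k + 1) → Z) = #Z ^ (k + 1 : ℕ) := by
      rw [← power_natCast]
      simp
    rw [h2, power_nat_eq (aleph0_le_mk Z) (by omega)]
  obtain ⟨f⟩ := h1
  exact ⟨f, f.injective⟩

/-- the codes -/
noncomputable def code (k : ℕ) : (Fin (k + 1) → Z) → Z := (exists_code k).choose

lemma code_inj (k : ℕ) : Function.Injective (code k) := (exists_code k).choose_spec

/-- the subspace -/
def DF : Set (∀ n, XN n) := {d | ∃ k, ∀ i, k < i → d i = code k (fun j : Fin (k + 1) => d j)}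

theorem paracompact_DF : ParacompactSpace DF := by
  have := reg_XN
  refine paracompact_of (T := Z) (fun k d => ((d : ∀ n, XN n) (k + 1) : Z)) ?_
    (fun k => {d | ∀ i, k < i → (d : ∀ n, XN n) i = code k (fun j : Fin (k + 1) => (d : ∀ n, XN n) j)})
    ?_ (fun d => d.2)
  · intro k s
    have h1 : Continuous fun d : DF => (d : ∀ n, XN n) (k + 1) :=
      (continuous_apply (k + 1)).comp continuous_subtype_val
    have : DiscreteTopology (XN (k + 1)) := ⟨rfl⟩
    exact (isOpen_discrete ({s} : Set (XN (k + 1)))).preimage h1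
  · intro k d hd d' hd' h
    have h1 : (d : ∀ n, XN n) (k + 1) = (d' : ∀ n, XN n) (k + 1) := h
    rw [hd (k + 1) (Nat.lt_succ_self k), hd' (k + 1) (Nat.lt_succ_self k)] at h1
    have h2 := code_inj k h1
    refine Subtype.ext (funext fun i => ?_)
    by_cases hi : k < i
    · rw [hd i hi, hd' i hi, h2]
    · exact congrFun h2 ⟨i, by omega⟩

theorem fills_DF : FillsFinite DF := by
  classical
  intro J _ hJ x
  obtain ⟨k, hk⟩ := hJ.bddAbove
  set r : ℕ → Z := fun i => if h : i ∈ J then x ⟨i, h⟩ else default with hr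
  refine ⟨fun i => if i ≤ k then r i else code k (fun j : Fin (k + 1) => r j), ⟨k, fun i hi => ?_⟩, ?_⟩
  · have h1 : ¬ i ≤ k := not_le.2 hi
    simp only [h1, if_false]
    congr 1
    funext j
    have : (j : ℕ) ≤ k := Nat.lt_succ_iff.1 j.2
    simp only [this, if_true]
  · rintro ⟨i, hi⟩
    have h1 : i ≤ k := hk hi
    simp only [h1, if_true, hr, dif_pos hi]

end Pool.Agent.Q151.Plank
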