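import Pool.Agent.Q151.Plank.Transfer

/-!
# The machine: a space that is not completely regular, and a zero-dimensional subspace of its
product with `S^I`
-/

open Set Filter Topology

namespace Pool.Agent.Q151.Plank

/-- Countably many copies of the plank, glued alternately, with a limit point. The edge `E j x y`
is adjacent to `A ((j+1)/2) x` and to `B (j/2) y`. -/
inductive M : Type
  | top : M
  | A (n : ℕ) (x : S) : M
  | B (n : ℕ) (y : Finset I) : M
  | E (j : ℕ) (x : S) (y : Finset I) : M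

namespace M

instance : Inhabited M := ⟨top⟩

instance : TopologicalSpace M where
  IsOpen U := (∀ n x, A n x ∈ U → ∃ a : Finset I, ∀ y, a ⊆ y → ∀ j, (j + 1) / 2 = n → E j x y ∈ U) ∧
    (∀ n y, B n y ∈ U → ∃ w : S, ∀ x, w ≤ x → ∀ j, j / 2 = n → E j x y ∈ U) ∧
    (top ∈ U → ∃ N : ℕ, (∀ n x, N ≤ n → A n x ∈ U) ∧ (∀ n y, N ≤ n → B n y ∈ U) ∧
      ∀ j x y, 2 * N ≤ j → E j x y ∈ U)
  isOpen_univ := ⟨fun _ _ _ => ⟨∅, fun _ _ _ _ => trivial⟩, fun _ _ _ => ⟨s₀, fun _ _ _ _ => trivial⟩,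
    fun _ => ⟨0, fun _ _ _ => trivial, fun _ _ _ => trivial, fun _ _ _ _ => trivial⟩⟩
  isOpen_inter U V hU hV := by
    classical
    refine ⟨fun n x hx => ?_, fun n y hy => ?_, fun ht => ?_⟩
    · obtain ⟨a, ha⟩ := hU.1 n x hx.1
      obtain ⟨b, hb⟩ := hV.1 n x hx.2
      exact ⟨a ∪ b, fun y h j hj => ⟨ha y (Finset.union_subset_left h) j hj,
        hb y (Finset.union_subset_right h) j hj⟩⟩
    · obtain ⟨a, ha⟩ := hU.2.1 n y hy.1
      obtain ⟨b, hb⟩ := hV.2.1 n y hy.2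
      exact ⟨max a b, fun x h j hj => ⟨ha x (le_trans (le_max_left _ _) h) j hj,
        hb x (le_trans (le_max_right _ _) h) j hj⟩⟩
    · obtain ⟨N, hN1, hN2, hN3⟩ := hU.2.2 ht.1
      obtain ⟨N', hN1', hN2', hN3'⟩ := hV.2.2 ht.2
      refine ⟨max N N', fun n x hn => ⟨hN1 n x (le_trans (le_max_left _ _) hn),
        hN1' n x (le_trans (le_max_right _ _) hn)⟩, fun n x hn =>
        ⟨hN2 n x (le_trans (le_max_left _ _) hn), hN2' n x (le_trans (le_max_right _ _) hn)⟩,
        fun j x y hj => ⟨hN3 j x y ?_, hN3' j x y ?_⟩⟩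
      · have := le_max_left N N'; omega
      · have := le_max_right N N'; omega
  isOpen_sUnion 𝒰 h𝒰 := by
    refine ⟨fun n x hx => ?_, fun n y hy => ?_, fun ht => ?_⟩
    · obtain ⟨U, hU, hxU⟩ := hx
      obtain ⟨a, ha⟩ := (h𝒰 U hU).1 n x hxU
      exact ⟨a, fun y h j hj => ⟨U, hU, ha y h j hj⟩⟩
    · obtain ⟨U, hU, hyU⟩ := hy
      obtain ⟨a, ha⟩ := (h𝒰 U hU).2.1 n y hyU
      exact ⟨a, fun x h j hj => ⟨U, hU, ha x h j hj⟩⟩
    · obtain ⟨U, hU, htU⟩ := ht
      obtain ⟨N, hN1, hN2, hN3⟩ := (h𝒰 U hU).2.2 htU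
      exact ⟨N, fun n x hn => ⟨U, hU, hN1 n x hn⟩, fun n x hn => ⟨U, hU, hN2 n x hn⟩,
        fun j x y hj => ⟨U, hU, hN3 j x y hj⟩⟩

lemma isOpen_iff {U : Set M} : IsOpen U ↔
    (∀ n x, A n x ∈ U → ∃ a : Finset I, ∀ y, a ⊆ y → ∀ j, (j + 1) / 2 = n → E j x y ∈ U) ∧
    (∀ n y, B n y ∈ U → ∃ w : S, ∀ x, w ≤ x → ∀ j, j / 2 = n → E j x y ∈ U) ∧
    (top ∈ U → ∃ N : ℕ, (∀ n x, N ≤ n → A n x ∈ U) ∧ (∀ n y, N ≤ n → B n y ∈ U) ∧
      ∀ j x y, 2 * N ≤ j → E j x y ∈ U) := Iff.rfl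

/-- basic neighbourhood of `A n x` -/
def nA (n : ℕ) (x : S) (a : Finset I) : Set M :=
  {z | z = A n x ∨ ∃ y, a ⊆ y ∧ ∃ j, (j + 1) / 2 = n ∧ z = E j x y}

/-- basic neighbourhood of `B n y` -/
def nB (n : ℕ) (y : Finset I) (w : S) : Set M :=
  {z | z = B n y ∨ ∃ x, w ≤ x ∧ ∃ j, j / 2 = n ∧ z = E j x y}

lemma isOpen_nA (n : ℕ) (x : S) (a : Finset I) : IsOpen (nA n x a) := by
  refine isOpen_iff.2 ⟨fun n' x' hx' => ?_, fun n' y hy => ?_, fun ht => ?_⟩
  · rcases hx' with h | ⟨y, -, j, -, h⟩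
    · cases h
      exact ⟨a, fun y hy j hj => Or.inr ⟨y, hy, j, hj, rfl⟩⟩
    · cases h
  · rcases hy with h | ⟨y, -, j, -, h⟩ <;> cases h
  · rcases ht with h | ⟨y, -, j, -, h⟩ <;> cases h

lemma isOpen_nB (n : ℕ) (y : Finset I) (w : S) : IsOpen (nB n y w) := by
  refine isOpen_iff.2 ⟨fun n' x' hx' => ?_, fun n' y hy => ?_, fun ht => ?_⟩
  · rcases hx' with h | ⟨y, -, j, -, h⟩ <;> cases h
  · rcases hy with h | ⟨x, -, j, -, h⟩
    · cases h
      exact ⟨w, fun x hx j hj => Or.inr ⟨x, hx, j, hj, rfl⟩⟩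
    · cases h
  · rcases ht with h | ⟨y, -, j, -, h⟩ <;> cases h

lemma isOpen_E (j : ℕ) (x : S) (y : Finset I) : IsOpen ({E j x y} : Set M) := by
  refine isOpen_iff.2 ⟨fun _ _ h => ?_, fun _ _ h => ?_, fun h => ?_⟩ <;> cases h

lemma isClosed_nA (n : ℕ) (x : S) (a : Finset I) : IsClosed (nA n x a) := by
  classical
  refine isOpen_compl_iff.1 (isOpen_iff.2 ⟨fun n' x' hx' => ?_, fun n' y hy => ?_, fun _ => ?_⟩)
  · refine ⟨∅, fun y _ j hj h => ?_⟩
    rcases h with h | ⟨y, hy, j, hj', h⟩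
    · cases h
    · cases h
      rw [hj] at hj'
      subst hj'
      exact hx' (Or.inl rfl)
  · obtain ⟨w, hw⟩ := S_exists_gt x
    refine ⟨w, fun x' hx' j hj h => ?_⟩
    rcases h with h | ⟨y, hy, j, hj', h⟩
    · cases h
    · cases h
      exact absurd hw (not_lt.2 hx')
  · refine ⟨n + 1, fun n' x' hn h => ?_, fun n' y' hn h => ?_, fun j x' y' hj h => ?_⟩
    · rcases h with h | ⟨y, hy, j, hj', h⟩
      · cases h; omega
      · cases h
    · rcases h with h | ⟨y, hy, j, hj', h⟩ <;> cases h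
    · rcases h with h | ⟨y, hy, j, hj', h⟩
      · cases h
      · cases h; omega

lemma isClosed_nB (n : ℕ) (y : Finset I) (w : S) : IsClosed (nB n y w) := by
  classical
  refine isOpen_compl_iff.1 (isOpen_iff.2 ⟨fun n' x' hx' => ?_, fun n' y' hy' => ?_, fun _ => ?_⟩)
  · obtain ⟨i, hi⟩ := Z.exists_notMem y
    refine ⟨{i}, fun y' hy' j hj h => ?_⟩
    rcases h with h | ⟨x, hx, j, hj', h⟩
    · cases h
    · cases h
      exact hi (hy' (Finset.mem_singleton_self i))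
  · refine ⟨s₀, fun x _ j hj h => ?_⟩
    rcases h with h | ⟨x', hx', j, hj', h⟩
    · cases h
    · cases h
      rw [hj] at hj'
      subst hj'
      exact hy' (Or.inl rfl)
  · refine ⟨n + 1, fun n' x' hn h => ?_, fun n' y' hn h => ?_, fun j x' y' hj h => ?_⟩
    · rcases h with h | ⟨y, hy, j, hj', h⟩ <;> cases h
    · rcases h with h | ⟨y, hy, j, hj', h⟩
      · cases h; omega
      · cases h
    · rcases h with h | ⟨y, hy, j, hj', h⟩
      · cases h
      · cases h; omega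

instance : T1Space M := by
  refine ⟨fun z => isOpen_compl_iff.1 ?_⟩
  refine isOpen_iff.2 ⟨fun n x hx => ?_, fun n y hy => ?_, fun ht => ?_⟩
  · cases z with
    | top => exact ⟨∅, fun y _ j _ h => by cases h⟩
    | A n' x' => exact ⟨∅, fun y _ j _ h => by cases h⟩
    | B n' y' => exact ⟨∅, fun y _ j _ h => by cases h⟩
    | E j' x' y' =>
      obtain ⟨i, hi⟩ := Z.exists_notMem y'
      refine ⟨{i}, fun y h j _ h' => ?_⟩
      cases h'
      exact hi (h (Finset.mem_singleton_self i))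
  · cases z with
    | top => exact ⟨s₀, fun y _ j _ h => by cases h⟩
    | A n' x' => exact ⟨s₀, fun y _ j _ h => by cases h⟩
    | B n' y' => exact ⟨s₀, fun y _ j _ h => by cases h⟩
    | E j' x' y' =>
      obtain ⟨w, hw⟩ := S_exists_gt x'
      refine ⟨w, fun x h j _ h' => ?_⟩
      cases h'
      exact absurd hw (not_lt.2 h)
  · cases z with
    | top => exact absurd rfl ht
    | A n' x' =>
      refine ⟨n' + 1, fun n x hn h => ?_, fun n y _ h => (by cases h), fun j x y _ h => (by cases h)⟩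
      cases h; omega
    | B n' y' =>
      refine ⟨n' + 1, fun n x _ h => (by cases h), fun n x hn h => ?_, fun j x y _ h => (by cases h)⟩
      cases h; omega
    | E j' x' y' =>
      refine ⟨j' + 1, fun n x _ h => (by cases h), fun n x _ h => (by cases h), fun j x y hj h => ?_⟩
      cases h; omega

/-- basic neighbourhood of `top` -/
def nT (N : ℕ) : Set M := {z | z = top ∨ (∃ n x, N < n ∧ z = A n x) ∨ (∃ n y, N ≤ n ∧ z = B n y) ∨
  ∃ j x y, 2 * N ≤ j ∧ z = E j x y}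

lemma isOpen_nT (N : ℕ) : IsOpen (nT N) := by
  refine isOpen_iff.2 ⟨fun n x hx => ?_, fun n y hy => ?_, fun _ => ?_⟩
  · rcases hx with h | ⟨n, x, hn, h⟩ | ⟨n, y, hn, h⟩ | ⟨j, x, y, hj, h⟩ <;> cases h
    refine ⟨∅, fun y _ j hj => Or.inr (Or.inr (Or.inr ⟨j, x, y, ?_, rfl⟩))⟩
    omega
  · rcases hy with h | ⟨n, x, hn, h⟩ | ⟨n, y, hn, h⟩ | ⟨j, x, y, hj, h⟩ <;> cases h
    refine ⟨s₀, fun x _ j hj => Or.inr (Or.inr (Or.inr ⟨j, x, y, ?_, rfl⟩))⟩
    omega
  · refine ⟨N + 1, fun n x hn => Or.inr (Or.inl ⟨n, x, by omega, rfl⟩),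
      fun n y hn => Or.inr (Or.inr (Or.inl ⟨n, y, by omega, rfl⟩)),
      fun j x y hj => Or.inr (Or.inr (Or.inr ⟨j, x, y, by omega, rfl⟩))⟩

/-- the pair of sets cannot be separated in the plank -/
def NS (P : Set S) (R : Set (Finset I)) : Prop :=
  ∀ (a : S → Finset I) (w : Finset I → S), ∃ x ∈ P, ∃ y ∈ R, a x ⊆ y ∧ w y ≤ x

lemma NS_univ : NS univ univ := by
  intro a w
  obtain ⟨b, hb⟩ := S_bdd w
  exact ⟨b, trivial, a b, trivial, le_rfl, hb _⟩

lemma NS.mono {P P' : Set S} {R R' : Set (Finset I)} (h : NS P R) (hP : P ⊆ P') (hR : R ⊆ R') :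
    NS P' R' := by
  intro a w
  obtain ⟨x, hx, y, hy, h⟩ := h a w
  exact ⟨x, hP hx, y, hR hy, h⟩

lemma stepB {f : M → ℝ} (hf : Continuous f) {s t : ℝ} (hts : t < s) {n j : ℕ}
    (hA : (j + 1) / 2 = n) {m : ℕ} (hB : j / 2 = m) {P : Set S} {R : Set (Finset I)}
    (hNS : NS P R) (hP : ∀ x ∈ P, s ≤ f (A n x)) :
    NS P {y ∈ R | t ≤ f (B m y)} := by
  classical
  intro a w
  obtain ⟨r, htr, hrs⟩ := exists_between hts
  have h1 : ∀ x, ∃ b : Finset I, x ∈ P → ∀ y, b ⊆ y → r < f (E j x y) := by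
    intro x
    by_cases hx : x ∈ P
    · have ho : IsOpen (f ⁻¹' Ioi r) := isOpen_Ioi.preimage hf
      obtain ⟨b, hb⟩ := (isOpen_iff.1 ho).1 n x (lt_of_lt_of_le hrs (hP x hx))
      exact ⟨b, fun _ y hy => hb y hy j hA⟩
    · exact ⟨∅, fun h => absurd h hx⟩
  have h2 : ∀ y, ∃ v : S, ¬ t ≤ f (B m y) → ∀ x, v ≤ x → f (E j x y) < r := by
    intro y
    by_cases hy : t ≤ f (B m y)
    · exact ⟨s₀, fun h => absurd hy h⟩
    · have ho : IsOpen (f ⁻¹' Iio r) := isOpen_Iio.preimage hf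
      obtain ⟨v, hv⟩ := (isOpen_iff.1 ho).2.1 m y ((not_le.1 hy).trans htr)
      exact ⟨v, fun _ x hx => hv x hx j hB⟩
  choose b hb using h1
  choose v hv using h2
  obtain ⟨x, hx, y, hy, hxy, hyx⟩ := hNS (fun x => a x ∪ b x) (fun y => max (w y) (v y))
  refine ⟨x, hx, y, ⟨hy, ?_⟩, Finset.union_subset_left hxy, le_trans (le_max_left _ _) hyx⟩
  by_contra hcon
  exact lt_asymm (hb x hx y (Finset.union_subset_right hxy))
    (hv y hcon x (le_trans (le_max_right _ _) hyx))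

lemma stepA {f : M → ℝ} (hf : Continuous f) {s t : ℝ} (hts : t < s) {n j : ℕ}
    (hA : (j + 1) / 2 = n) {m : ℕ} (hB : j / 2 = m) {P : Set S} {R : Set (Finset I)}
    (hNS : NS P R) (hR : ∀ y ∈ R, s ≤ f (B m y)) :
    NS {x ∈ P | t ≤ f (A n x)} R := by
  classical
  intro a w
  obtain ⟨r, htr, hrs⟩ := exists_between hts
  have h1 : ∀ x, ∃ b : Finset I, ¬ t ≤ f (A n x) → ∀ y, b ⊆ y → f (E j x y) < r := by
    intro x
    by_cases hx : t ≤ f (A n x)
    · exact ⟨∅, fun h => absurd hx h⟩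
    · have ho : IsOpen (f ⁻¹' Iio r) := isOpen_Iio.preimage hf
      obtain ⟨b, hb⟩ := (isOpen_iff.1 ho).1 n x ((not_le.1 hx).trans htr)
      exact ⟨b, fun _ y hy => hb y hy j hA⟩
  have h2 : ∀ y, ∃ v : S, y ∈ R → ∀ x, v ≤ x → r < f (E j x y) := by
    intro y
    by_cases hy : y ∈ R
    · have ho : IsOpen (f ⁻¹' Ioi r) := isOpen_Ioi.preimage hf
      obtain ⟨v, hv⟩ := (isOpen_iff.1 ho).2.1 m y (lt_of_lt_of_le hrs (hR y hy))
      exact ⟨v, fun _ x hx => hv x hx j hB⟩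
    · exact ⟨s₀, fun h => absurd h hy⟩
  choose b hb using h1
  choose v hv using h2
  obtain ⟨x, hx, y, hy, hxy, hyx⟩ := hNS (fun x => a x ∪ b x) (fun y => max (w y) (v y))
  refine ⟨x, ⟨hx, ?_⟩, y, hy, Finset.union_subset_left hxy, le_trans (le_max_left _ _) hyx⟩
  by_contra hcon
  exact lt_asymm (hb x hcon y (Finset.union_subset_right hxy))
    (hv y hy x (le_trans (le_max_right _ _) hyx))

/-- the thresholds -/
noncomputable def thr (k : ℕ) : ℝ := 1 / 2 + 1 / (k + 2)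

lemma thr_lt (k : ℕ) : thr (k + 1) < thr k := by
  unfold thr
  have : (1 : ℝ) / ((k + 1 : ℕ) + 2) < 1 / (k + 2) := by
    apply one_div_lt_one_div_of_lt
    · positivity
    · push_cast; linarith
  linarith

lemma half_lt_thr (k : ℕ) : 1 / 2 < thr k := by
  unfold thr
  have : (0 : ℝ) < 1 / (k + 2) := by positivity
  linarith

theorem exists_NS {f : M → ℝ} (hf : Continuous f) (h0 : ∀ x, f (A 0 x) = 1) (n : ℕ) :
    NS {x | thr (2 * n) ≤ f (A n x)} univ := by
  induction n with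
  | zero =>
    refine NS_univ.mono (fun x _ => ?_) le_rfl
    change thr (2 * 0) ≤ f (A 0 x)
    rw [h0]
    simp [thr]; norm_num
  | succ n ih =>
    have h1 := stepB hf (thr_lt (2 * n)) (n := n) (j := 2 * n) (by omega) (m := n) (by omega) ih
      (fun x hx => hx)
    have h2 := stepA hf (thr_lt (2 * n + 1)) (n := n + 1) (j := 2 * n + 1) (by omega) (m := n)
      (by omega) (h1.mono (subset_univ _) le_rfl) (fun y hy => hy.2)
    refine h2.mono (fun x hx => ?_) (subset_univ _)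
    have := hx.2
    exact this

theorem not_cr : ¬ CompletelyRegularSpace M := by
  intro hcr
  have hcl : IsClosed (range (A 0)) := by
    refine isOpen_compl_iff.1 (isOpen_iff.2 ⟨fun n x _ => ?_, fun n y _ => ?_, fun _ => ?_⟩)
    · exact ⟨∅, fun y _ j _ ⟨x', h⟩ => by cases h⟩
    · exact ⟨s₀, fun y _ j _ ⟨x', h⟩ => by cases h⟩
    · refine ⟨1, fun n x hn ⟨x', h⟩ => ?_, fun n y _ ⟨x', h⟩ => (by cases h),
        fun j x y _ ⟨x', h⟩ => (by cases h)⟩
      cases h; omega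
  obtain ⟨f, hf, hft, hfA⟩ := hcr.completely_regular top (range (A 0)) hcl (by
    rintro ⟨x, h⟩; cases h)
  set g : M → ℝ := fun z => (f z : ℝ) with hg
  have hgc : Continuous g := continuous_subtype_val.comp hf
  have hg0 : ∀ x, g (A 0 x) = 1 := by
    intro x
    have := hfA ⟨x, rfl⟩
    simp only [hg]
    rw [this]
    rfl
  have hgt : g top = 0 := by simp only [hg]; rw [hft]; rfl
  have ho : IsOpen (g ⁻¹' Iio (1 / 2)) := isOpen_Iio.preimage hgc
  obtain ⟨N, hN, -, -⟩ := (isOpen_iff.1 ho).2.2 (by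
    change g top < 1 / 2
    rw [hgt]; norm_num)
  obtain ⟨x, hx, -⟩ := exists_NS hgc hg0 N (fun _ => ∅) (fun _ => s₀)
  have h1 : g (A N x) < 1 / 2 := hN N x le_rfl
  exact absurd ((half_lt_thr (2 * N)).trans_le hx) (not_lt.2 h1.le)

end M

open M

/-- the zero-dimensional subspace -/
def DM : Set (M × (I → S)) := {p | ∀ n x, p.1 = A n x → ∃ i, x < p.2 i}

lemma exists_clopen_DM (d : DM) (U : Set DM) (hU : IsOpen U) (hd : d ∈ U) :
    ∃ V, IsClopen V ∧ d ∈ V ∧ V ⊆ U := by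
  classical
  obtain ⟨O, hO, rfl⟩ := isOpen_induced_iff.1 hU
  obtain ⟨⟨z, s⟩, hzs⟩ := d
  obtain ⟨V, hV, hzV, a, hsub⟩ := exists_prod (hO.mem_nhds hd)
  have hcyl : IsClopen (cyl a s) := ⟨isClosed_cyl a s, isOpen_cyl a s⟩
  -- a general construction from a clopen set of `M`
  have gen : ∀ W : Set M, IsClopen W → z ∈ W → W ⊆ V →
      ∃ V', IsClopen V' ∧ (⟨(z, s), hzs⟩ : DM) ∈ V' ∧ V' ⊆ Subtype.val ⁻¹' O := by
    intro W hW hzW hWV
    refine ⟨Subtype.val ⁻¹' (W ×ˢ cyl a s), (hW.prod hcyl).preimage continuous_subtype_val,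
      ⟨hzW, mem_cyl_self a s⟩, ?_⟩
    exact preimage_mono ((prod_mono_left hWV).trans hsub)
  cases z with
  | A n x =>
    obtain ⟨b, hb⟩ := (M.isOpen_iff.1 hV).1 n x hzV
    refine gen (M.nA n x b) ⟨M.isClosed_nA _ _ _, M.isOpen_nA _ _ _⟩ (Or.inl rfl) ?_
    rintro z (rfl | ⟨y, hy, j, hj, rfl⟩)
    · exact hzV
    · exact hb y hy j hj
  | B n y =>
    obtain ⟨b, hb⟩ := (M.isOpen_iff.1 hV).2.1 n y hzV
    refine gen (M.nB n y b) ⟨M.isClosed_nB _ _ _, M.isOpen_nB _ _ _⟩ (Or.inl rfl) ?_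
    rintro z (rfl | ⟨y, hy, j, hj, rfl⟩)
    · exact hzV
    · exact hb y hy j hj
  | E j x y =>
    refine gen {M.E j x y} ⟨isClosed_singleton, M.isOpen_E _ _ _⟩ rfl ?_
    rintro z rfl
    exact hzV
  | top =>
    obtain ⟨N, hN1, hN2, hN3⟩ := (M.isOpen_iff.1 hV).2.2 hzV
    -- the clopen set
    set K : Set DM := {d | ∀ z t, (d : M × (I → S)) = (z, t) → z ∈ nT N ∧
      ∀ x y, z = M.E (2 * N) x y → ∀ i ∈ y, t i ≤ x} with hK
    have hKmem : ∀ z t (h : (z, t) ∈ DM), (⟨(z, t), h⟩ : DM) ∈ K ↔ (z ∈ nT N ∧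
      ∀ x y, z = M.E (2 * N) x y → ∀ i ∈ y, t i ≤ x) := by
      intro z t h
      constructor
      · intro h'; exact h' z t rfl
      · intro h' z' t' hz'
        cases hz'
        exact h'
    have hlc : ∀ d : DM, ∃ O : Set (M × (I → S)), O ∈ 𝓝 (d : M × (I → S)) ∧
        ∀ d' : DM, (d' : M × (I → S)) ∈ O → (d' ∈ K ↔ d ∈ K) := by
      rintro ⟨⟨z, t⟩, hzt⟩
      cases z with
      | top =>
        refine ⟨nT (N + 1) ×ˢ univ, prod_mem (isOpen_nT (N + 1)) (Or.inl rfl) ∅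
          (prod_mono_right (subset_univ _)), ?_⟩
        rintro ⟨⟨z', t'⟩, hzt'⟩ ⟨hz', -⟩
        rw [hKmem, hKmem]
        refine iff_of_true ⟨?_, ?_⟩ ⟨Or.inl rfl, fun x y h => by cases h⟩
        · rcases hz' with h | ⟨n, x, hn, h⟩ | ⟨n, y, hn, h⟩ | ⟨j, x, y, hj, h⟩
          · exact Or.inl h
          · exact Or.inr (Or.inl ⟨n, x, by omega, h⟩)
          · exact Or.inr (Or.inr (Or.inl ⟨n, y, by omega, h⟩))
          · exact Or.inr (Or.inr (Or.inr ⟨j, x, y, by omega, h⟩))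
        · rintro x y (rfl : z' = _)
          rcases hz' with h | ⟨n, x, hn, h⟩ | ⟨n, y, hn, h⟩ | ⟨j, x, y, hj, h⟩ <;> cases h
          omega
      | A n x =>
        obtain ⟨i, hi⟩ := hzt n x rfl
        refine ⟨M.nA n x {i} ×ˢ cyl {i} t, prod_mem (M.isOpen_nA n x {i}) (Or.inl rfl) {i} le_rfl, ?_⟩
        rintro ⟨⟨z', t'⟩, hzt'⟩ ⟨hz', ht'⟩
        rw [hKmem, hKmem]
        have hzn : M.A n x ∈ nT N ↔ N < n := by
          constructor
          · rintro (h | ⟨n, x, hn, h⟩ | ⟨n, y, hn, h⟩ | ⟨j, x, y, hj, h⟩) <;> cases h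
            exact hn
          · intro h; exact Or.inr (Or.inl ⟨n, x, h, rfl⟩)
        rcases hz' with h | ⟨y, hy, j, hj, h⟩
        · have h' : z' = M.A n x := h
          subst h'
          refine and_congr Iff.rfl ⟨fun _ x y h => (by cases h), fun _ x y h => (by cases h)⟩
        · have h' : z' = M.E j x y := h
          subst h'
          rw [hzn]
          constructor
          · rintro ⟨h1, h2⟩
            refine ⟨?_, fun x y h => by cases h⟩
            by_contra hcon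
            have hj2 : 2 * N ≤ j := by
              rcases h1 with h | ⟨n, x, hn, h⟩ | ⟨n, y, hn, h⟩ | ⟨j, x, y, hj, h⟩ <;> cases h
              exact hj
            have hj3 : j = 2 * N := by omega
            subst hj3
            have h4 := h2 x y rfl i (hy (Finset.mem_singleton_self i))
            have h5 : t' i = t i := ht' i (Finset.mem_singleton_self i)
            rw [h5] at h4
            exact absurd hi (not_lt.2 h4)
          · rintro ⟨h1, -⟩
            refine ⟨Or.inr (Or.inr (Or.inr ⟨j, x, y, by omega, rfl⟩)), fun x' y' h => ?_⟩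
            cases h
            omega
      | B n y =>
        obtain ⟨w, hw⟩ := exists_bd y t
        refine ⟨M.nB n y w ×ˢ cyl y t, prod_mem (M.isOpen_nB n y w) (Or.inl rfl) y le_rfl, ?_⟩
        rintro ⟨⟨z', t'⟩, hzt'⟩ ⟨hz', ht'⟩
        rw [hKmem, hKmem]
        have hzn : M.B n y ∈ nT N ↔ N ≤ n := by
          constructor
          · rintro (h | ⟨n, x, hn, h⟩ | ⟨n, y, hn, h⟩ | ⟨j, x, y, hj, h⟩) <;> cases h
            exact hn
          · intro h; exact Or.inr (Or.inr (Or.inl ⟨n, y, h, rfl⟩))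
        rcases hz' with h | ⟨x, hx, j, hj, h⟩
        · have h' : z' = M.B n y := h
          subst h'
          refine and_congr Iff.rfl ⟨fun _ x y h => (by cases h), fun _ x y h => (by cases h)⟩
        · have h' : z' = M.E j x y := h
          subst h'
          rw [hzn]
          constructor
          · rintro ⟨h1, h2⟩
            refine ⟨?_, fun x y h => by cases h⟩
            have hj2 : 2 * N ≤ j := by
              rcases h1 with h | ⟨n, x, hn, h⟩ | ⟨n, y, hn, h⟩ | ⟨j, x, y, hj, h⟩ <;> cases h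
              exact hj
            omega
          · rintro ⟨h1, -⟩
            refine ⟨Or.inr (Or.inr (Or.inr ⟨j, x, y, by omega, rfl⟩)), fun x' y' h i hi => ?_⟩
            cases h
            have h5 : t' i = t i := ht' i hi
            rw [h5]
            exact (hw i hi).trans hx
      | E j x y =>
        refine ⟨{M.E j x y} ×ˢ cyl y t, prod_mem (M.isOpen_E j x y) rfl y le_rfl, ?_⟩
        rintro ⟨⟨z', t'⟩, hzt'⟩ ⟨hz', ht'⟩
        have h' : z' = M.E j x y := hz'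
        subst h'
        rw [hKmem, hKmem]
        refine and_congr Iff.rfl (forall_congr' fun x' => forall_congr' fun y' => ?_)
        constructor
        · intro h hE i hi
          cases hE
          have h5 : t' i = t i := ht' i hi
          rw [← h5]; exact h rfl i hi
        · intro h hE i hi
          cases hE
          have h5 : t' i = t i := ht' i hi
          rw [h5]; exact h rfl i hi
    have hop : ∀ (P : Prop → Prop), IsOpen {d : DM | P (d ∈ K)} := by
      intro P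
      rw [isOpen_iff_mem_nhds]
      intro d hd
      obtain ⟨O, hO, hO'⟩ := hlc d
      have h5 : (Subtype.val ⁻¹' O : Set DM) ∈ 𝓝 d :=
        continuous_subtype_val.continuousAt.preimage_mem_nhds hO
      refine mem_of_superset h5 fun d' hd' => ?_
      change P (d' ∈ K)
      rw [propext (hO' d' hd')]
      exact hd
    have hKclopen : IsClopen K :=
      ⟨isOpen_compl_iff.1 (hop fun p => ¬ p), hop fun p => p⟩
    refine ⟨K ∩ Subtype.val ⁻¹' (univ ×ˢ cyl a s),
      hKclopen.inter ((isClopen_univ.prod hcyl).preimage continuous_subtype_val), ⟨?_, trivial,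
        mem_cyl_self a s⟩, ?_⟩
    · rw [hKmem]
      exact ⟨Or.inl rfl, fun x y h => by cases h⟩
    · rintro ⟨⟨z', t'⟩, hzt'⟩ ⟨hK', -, ht'⟩
      rw [hKmem] at hK'
      refine hsub ⟨?_, ht'⟩
      change z' ∈ V
      rcases hK'.1 with h | ⟨n, x, hn, h⟩ | ⟨n, y, hn, h⟩ | ⟨j, x, y, hj, h⟩
      · rw [h]; exact hzV
      · rw [h]; exact hN1 n x hn.le
      · rw [h]; exact hN2 n y hn
      · rw [h]; exact hN3 j x y hj

theorem cr_DM : CompletelyRegularSpace DM := by
  refine CompletelyRegularSpace.of_isTopologicalBasis_clopens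
    (TopologicalSpace.isTopologicalBasis_of_isOpen_of_nhds (fun s hs => hs.isOpen) ?_)
  intro d U hd hU
  obtain ⟨V, hV, hdV, hVU⟩ := exists_clopen_DM d U hU hd
  exact ⟨V, hV, hdV, hVU⟩

/-- `DM` fills the countable subproducts. -/
lemma fills_DM (z : M) {J : Set I} (hJ : J.Countable) (r : I → S) :
    ∃ s, (z, s) ∈ DM ∧ ∀ i ∈ J, s i = r i := by
  classical
  obtain ⟨i₀, hi₀⟩ : ∃ i, i ∉ J := by
    by_contra hcon
    push Not at hcon
    exact not_countable_univ (α := I) (hJ.mono fun i _ => hcon i)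
  cases z with
  | A n x =>
    refine ⟨fun i => if i ∈ J then r i else nx x, ?_, fun i hi => if_pos hi⟩
    intro n' x' h
    cases h
    exact ⟨i₀, by simp only [if_neg hi₀]; exact lt_nx x⟩
  | top => exact ⟨r, fun n x h => (by cases h), fun i _ => rfl⟩
  | B n y => exact ⟨r, fun n x h => (by cases h), fun i _ => rfl⟩
  | E j x y => exact ⟨r, fun n x h => (by cases h), fun i _ => rfl⟩

end Pool.Agent.Q151.Plank
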