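import Pool.Agent.Q151.Plank.Z

/-!
# A normal subspace of `Z × S^I` filling the countable subproducts
-/

open Set Filter Topology

namespace Pool.Agent.Q151.Plank

open Z

/-- base points -/
noncomputable def base : Z → S
  | A x => nx x
  | B _ => s₀
  | E _ _ => s₀

/-- the subspace -/
def DN : Set (Z × (I → S)) := {p | {i | p.2 i ≠ base p.1}.Countable}

lemma mem_DN {z : Z} {s : I → S} : (z, s) ∈ DN ↔ {i | s i ≠ base z}.Countable := Iff.rfl

/-- The main combinatorial statement: a locally constant colouring. -/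
theorem colour (H K : Set (Z × (I → S))) (hHD : H ⊆ DN) (hKD : K ⊆ DN)
    (hdisj : ∀ p, p ∈ H → p ∈ K → False)
    (hH : ∀ z s, (z, s) ∈ DN → (z, s) ∉ H → ∃ V : Set Z, IsOpen V ∧ z ∈ V ∧ ∃ a : Finset I,
      ∀ z' ∈ V, ∀ t ∈ cyl a s, (z', t) ∉ H)
    (hK : ∀ z s, (z, s) ∈ DN → (z, s) ∉ K → ∃ V : Set Z, IsOpen V ∧ z ∈ V ∧ ∃ a : Finset I,
      ∀ z' ∈ V, ∀ t ∈ cyl a s, (z', t) ∉ K) :
    ∃ χ : Z → (I → S) → Prop, (∀ z s, (z, s) ∈ H → χ z s) ∧ (∀ z s, (z, s) ∈ K → ¬ χ z s) ∧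
      ∀ z s, (z, s) ∈ DN → ∃ V : Set Z, IsOpen V ∧ z ∈ V ∧ ∃ a : Finset I,
        ∀ z' ∈ V, ∀ t ∈ cyl a s, (χ z' t ↔ χ z s) := by
  classical
  -- the traces
  set HA : S → Set (I → S) := fun x => {s | (A x, s) ∈ H} with hHA
  set KA : S → Set (I → S) := fun x => {s | (A x, s) ∈ K} with hKA
  set HE : S → Finset I → Set (I → S) := fun x y => {s | (E x y, s) ∈ H} with hHE
  set KE : S → Finset I → Set (I → S) := fun x y => {s | (E x y, s) ∈ K} with hKE
  set HB : Finset I → S → Set (I → S) :=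
    fun y w => {s | (B y, s) ∈ H ∨ ∃ x, w ≤ x ∧ (E x y, s) ∈ H} with hHB
  set KB : Finset I → S → Set (I → S) :=
    fun y w => {s | (B y, s) ∈ K ∨ ∃ x, w ≤ x ∧ (E x y, s) ∈ K} with hKB
  have hHBm : ∀ y w w', w ≤ w' → HB y w' ⊆ HB y w := by
    rintro y w w' h s (hs | ⟨x, hx, hs⟩)
    · exact Or.inl hs
    · exact Or.inr ⟨x, h.trans hx, hs⟩
  have hKBm : ∀ y w w', w ≤ w' → KB y w' ⊆ KB y w := by
    rintro y w w' h s (hs | ⟨x, hx, hs⟩)
    · exact Or.inl hs
    · exact Or.inr ⟨x, h.trans hx, hs⟩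
  have SA := fun x => sep (nx x) (fun _ => HA x) (fun _ => KA x) (fun _ _ _ => le_rfl)
    (fun _ _ _ => le_rfl) (fun _ h hh => mem_DN.1 (hHD hh)) (fun _ h hh => mem_DN.1 (hKD hh)) (by
      intro s hs
      have hsD : (A x, s) ∈ DN := hs
      by_cases hsH : (A x, s) ∈ H
      · obtain ⟨V, -, hzV, a, ha⟩ := hK _ _ hsD fun h => hdisj _ hsH h
        exact Or.inr ⟨s₀, a, fun h hh hhs => ha _ hzV h hhs hh⟩
      · obtain ⟨V, -, hzV, a, ha⟩ := hH _ _ hsD hsH
        exact Or.inl ⟨s₀, a, fun h hh hhs => ha _ hzV h hhs hh⟩)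
  have SE := fun x y => sep s₀ (fun _ => HE x y) (fun _ => KE x y) (fun _ _ _ => le_rfl)
    (fun _ _ _ => le_rfl) (fun _ h hh => mem_DN.1 (hHD hh)) (fun _ h hh => mem_DN.1 (hKD hh)) (by
      intro s hs
      have hsD : (E x y, s) ∈ DN := hs
      by_cases hsH : (E x y, s) ∈ H
      · obtain ⟨V, -, hzV, a, ha⟩ := hK _ _ hsD fun h => hdisj _ hsH h
        exact Or.inr ⟨s₀, a, fun h hh hhs => ha _ hzV h hhs hh⟩
      · obtain ⟨V, -, hzV, a, ha⟩ := hH _ _ hsD hsH
        exact Or.inl ⟨s₀, a, fun h hh hhs => ha _ hzV h hhs hh⟩)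
  have SB := fun y => sep s₀ (HB y) (KB y) (hHBm y) (hKBm y)
    (by
      rintro w h (hh | ⟨x, -, hh⟩)
      · exact mem_DN.1 (hHD hh)
      · exact mem_DN.1 (hHD hh))
    (by
      rintro w h (hh | ⟨x, -, hh⟩)
      · exact mem_DN.1 (hKD hh)
      · exact mem_DN.1 (hKD hh))
    (by
      intro s hs
      have hsD : (B y, s) ∈ DN := hs
      by_cases hsH : (B y, s) ∈ H
      · obtain ⟨V, hV, hzV, a, ha⟩ := hK _ _ hsD fun h => hdisj _ hsH h
        obtain ⟨w, hw⟩ := hV.2 y hzV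
        refine Or.inr ⟨w, a, ?_⟩
        rintro h (hh | ⟨x, hx, hh⟩) hhs
        · exact ha _ hzV h hhs hh
        · exact ha _ (hw x hx) h hhs hh
      · obtain ⟨V, hV, hzV, a, ha⟩ := hH _ _ hsD hsH
        obtain ⟨w, hw⟩ := hV.2 y hzV
        refine Or.inl ⟨w, a, ?_⟩
        rintro h (hh | ⟨x, hx, hh⟩) hhs
        · exact ha _ hzV h hhs hh
        · exact ha _ (hw x hx) h hhs hh)
  choose ΦA hΦA hΦA' using SA
  choose ΦE hΦE hΦE' using SE
  choose ΦB hΦB hΦB' using SB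
  -- the colours
  set cA : S → (I → S) → Prop := fun x s => Miss (KA x) (ΦA x s) s with hcA
  set cE : S → Finset I → (I → S) → Prop := fun x y s => Miss (KE x y) (ΦE x y s) s with hcE
  set cB : Finset I → (I → S) → Prop := fun y s => ∃ w, Miss (KB y w) (ΦB y s) s with hcB
  have cA_congr : ∀ x s t, (∀ i ∈ ΦA x s, t i = s i) → (cA x t ↔ cA x s) := by
    intro x s t h
    simp only [hcA]
    rw [hΦA' x s t h]
    exact miss_iff h
  have cE_congr : ∀ x y s t, (∀ i ∈ ΦE x y s, t i = s i) → (cE x y t ↔ cE x y s) := by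
    intro x y s t h
    simp only [hcE]
    rw [hΦE' x y s t h]
    exact miss_iff h
  have cB_congr : ∀ y s t, (∀ i ∈ ΦB y s, t i = s i) → (cB y t ↔ cB y s) := by
    intro y s t h
    simp only [hcB]
    rw [hΦB' y s t h]
    exact exists_congr fun w => miss_iff h
  have hex : ∀ x s, {i | s i ≠ nx x}.Countable → ∃ a : Finset I, ΦA x s ⊆ a ∧
      (∃ i ∈ a, x < s i) ∧
      ((cA x s ∧ ∀ y, a ⊆ y → ∀ t ∈ cyl a s, (E x y, t) ∉ K) ∨
        (¬ cA x s ∧ ∀ y, a ⊆ y → ∀ t ∈ cyl a s, (E x y, t) ∉ H)) := by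
    intro x s hs
    have hsD : (A x, s) ∈ DN := hs
    obtain ⟨i, hi⟩ : ∃ i, i ∉ {i | s i ≠ nx x} := by
      by_contra hcon
      push Not at hcon
      exact not_countable_univ (α := I) (hs.mono fun i _ => hcon i)
    have hi' : s i = nx x := not_not.1 hi
    have hi2 : x < s i := by rw [hi']; exact lt_nx x
    by_cases hc : cA x s
    · have hsK : (A x, s) ∉ K := fun h => hc s h fun _ _ => rfl
      obtain ⟨V, hV, hzV, a, ha⟩ := hK _ _ hsD hsK
      obtain ⟨b, hb⟩ := hV.1 x hzV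
      refine ⟨ΦA x s ∪ {i} ∪ a ∪ b, fun j hj => ?_, ⟨i, ?_, hi2⟩, Or.inl ⟨hc, ?_⟩⟩
      · simp [hj]
      · simp
      · intro y hy t ht
        refine ha _ (hb y fun j hj => hy ?_) t fun j hj => ht j ?_
        · simp [hj]
        · simp [hj]
    · have hsH : (A x, s) ∉ H := by
        intro h
        rcases hΦA x s with ⟨-, h1⟩ | ⟨-, h1⟩
        · exact h1 s h fun _ _ => rfl
        · exact hc h1
      obtain ⟨V, hV, hzV, a, ha⟩ := hH _ _ hsD hsH
      obtain ⟨b, hb⟩ := hV.1 x hzV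
      refine ⟨ΦA x s ∪ {i} ∪ a ∪ b, fun j hj => ?_, ⟨i, ?_, hi2⟩, Or.inr ⟨hc, ?_⟩⟩
      · simp [hj]
      · simp
      · intro y hy t ht
        refine ha _ (hb y fun j hj => hy ?_) t fun j hj => ht j ?_
        · simp [hj]
        · simp [hj]
  choose! aA haA1 haA2 haA3 using hex
  set Q1 : S → Finset I → (I → S) → Prop := fun x y t => ∃ s, {i | s i ≠ nx x}.Countable ∧
    cA x s ∧ aA x s ⊆ y ∧ ∀ i ∈ aA x s, t i = s i with hQ1
  set Q0 : S → Finset I → (I → S) → Prop := fun x y t => ∃ s, {i | s i ≠ nx x}.Countable ∧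
    ¬ cA x s ∧ aA x s ⊆ y ∧ ∀ i ∈ aA x s, t i = s i with hQ0
  have hexcl : ∀ x y t, Q1 x y t → Q0 x y t → False := by
    rintro x y t ⟨s, hs, hcs, -, hts⟩ ⟨s', hs', hcs', -, hts'⟩
    set r : I → S := fun i => if i ∈ aA x s ∪ aA x s' then t i else nx x with hr
    have h1 : cA x r ↔ cA x s := by
      refine cA_congr x s r fun i hi => ?_
      have hi' := haA1 x s hs hi
      simp only [hr, Finset.mem_union, if_pos (Or.inl hi' : i ∈ aA x s ∨ i ∈ aA x s')]
      exact hts i hi'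
    have h2 : cA x r ↔ cA x s' := by
      refine cA_congr x s' r fun i hi => ?_
      have hi' := haA1 x s' hs' hi
      simp only [hr, Finset.mem_union, if_pos (Or.inr hi' : i ∈ aA x s ∨ i ∈ aA x s')]
      exact hts' i hi'
    exact hcs' (h2.1 (h1.2 hcs))
  have Q1_congr : ∀ x y t t', (∀ i ∈ y, t' i = t i) → (Q1 x y t' ↔ Q1 x y t) := by
    intro x y t t' h
    refine exists_congr fun s => and_congr Iff.rfl (and_congr Iff.rfl
      ⟨fun hh => ⟨hh.1, fun i hi => ?_⟩, fun hh => ⟨hh.1, fun i hi => ?_⟩⟩)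
    · rw [← h i (hh.1 hi)]; exact hh.2 i hi
    · rw [h i (hh.1 hi)]; exact hh.2 i hi
  have Q0_congr : ∀ x y t t', (∀ i ∈ y, t' i = t i) → (Q0 x y t' ↔ Q0 x y t) := by
    intro x y t t' h
    refine exists_congr fun s => and_congr Iff.rfl (and_congr Iff.rfl
      ⟨fun hh => ⟨hh.1, fun i hi => ?_⟩, fun hh => ⟨hh.1, fun i hi => ?_⟩⟩)
    · rw [← h i (hh.1 hi)]; exact hh.2 i hi
    · rw [h i (hh.1 hi)]; exact hh.2 i hi
  set χE : S → Finset I → (I → S) → Prop := fun x y t =>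
    ((∃ i ∈ y, x < t i) ∧ (Q1 x y t ∨ (¬ Q0 x y t ∧ cE x y t))) ∨
    ((¬ ∃ i ∈ y, x < t i) ∧ ((cB y t ∧ (Miss (KB y x) (ΦB y t) t ∨ cE x y t)) ∨
      (¬ cB y t ∧ ¬ Miss (HB y x) (ΦB y t) t ∧ cE x y t))) with hχE
  set χ : Z → (I → S) → Prop := fun z s => match z with
    | A x => cA x s
    | B y => cB y s
    | E x y => χE x y s with hχ
  refine ⟨χ, ?_, ?_, ?_⟩
  · -- `H` is coloured
    intro z s hs
    cases z with
    | A x =>
      change cA x s
      rcases hΦA x s with ⟨-, h1⟩ | ⟨-, h1⟩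
      · exact absurd (fun _ _ => rfl) (h1 s hs)
      · exact h1
    | B y =>
      change cB y s
      rcases hΦB y s with ⟨w, h1⟩ | h1
      · exact absurd (fun _ _ => rfl) (h1 s (Or.inl hs))
      · exact h1
    | E x y =>
      change χE x y s
      have hc : cE x y s := by
        rcases hΦE x y s with ⟨-, h1⟩ | ⟨-, h1⟩
        · exact absurd (fun _ _ => rfl) (h1 s hs)
        · exact h1
      by_cases h0 : ∃ i ∈ y, x < s i
      · refine Or.inl ⟨h0, Or.inr ⟨?_, hc⟩⟩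
        rintro ⟨r, hr, hcr, hry, hsr⟩
        rcases haA3 x r hr with ⟨h, -⟩ | ⟨-, h⟩
        · exact hcr h
        · exact h y hry s hsr hs
      · refine Or.inr ⟨h0, ?_⟩
        by_cases hcb : cB y s
        · exact Or.inl ⟨hcb, Or.inr hc⟩
        · exact Or.inr ⟨hcb, fun h => h s (Or.inr ⟨x, le_rfl, hs⟩) fun _ _ => rfl, hc⟩
  · intro z s hs
    cases z with
    | A x => exact fun (h : cA x s) => h s hs fun _ _ => rfl
    | B y =>
      rintro ⟨w, hw⟩
      exact hw s (Or.inl hs) fun _ _ => rfl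
    | E x y =>
      have hc : ¬ cE x y s := fun h => h s hs fun _ _ => rfl
      rintro (⟨-, h | h⟩ | ⟨-, h | h⟩)
      · obtain ⟨r, hr, hcr, hry, hsr⟩ := h
        rcases haA3 x r hr with ⟨-, h⟩ | ⟨h, -⟩
        · exact h y hry s hsr hs
        · exact h hcr
      · exact hc h.2
      · rcases h.2 with h | h
        · exact h s (Or.inr ⟨x, le_rfl, hs⟩) fun _ _ => rfl
        · exact hc h
      · exact hc h.2.2
  · intro z s hsD
    cases z with
    | A x =>
      have hs : {i | s i ≠ nx x}.Countable := hsD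
      refine ⟨nA x (aA x s), isOpen_nA _ _, Or.inl rfl, aA x s, ?_⟩
      rintro z' (rfl | ⟨y, hy, rfl⟩) t ht
      · exact cA_congr x s t fun i hi => ht i (haA1 x s hs hi)
      · change χE x y t ↔ cA x s
        obtain ⟨i, hi, hxi⟩ := haA2 x s hs
        have h0 : ∃ i ∈ y, x < t i := ⟨i, hy hi, by rw [ht i hi]; exact hxi⟩
        constructor
        · intro h
          by_contra hc
          have hq0 : Q0 x y t := ⟨s, hs, hc, hy, ht⟩
          rcases h with ⟨-, h | h⟩ | h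
          · exact hexcl x y t h hq0
          · exact h.1 hq0
          · exact h.1 h0
        · intro hc
          exact Or.inl ⟨h0, Or.inl ⟨s, hs, hc, hy, ht⟩⟩
    | B y =>
      obtain ⟨w1, hw1⟩ := exists_bd y s
      by_cases hc : cB y s
      · obtain ⟨w0, hw0⟩ := hc
        obtain ⟨w, hw, hw'⟩ := exists_ge w0 w1
        refine ⟨nB y w, isOpen_nB _ _, Or.inl rfl, ΦB y s ∪ y, ?_⟩
        rintro z' (rfl | ⟨x, hx, rfl⟩) t ht
        · exact cB_congr y s t fun i hi => ht i (Finset.mem_union_left _ hi)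
        · change χE x y t ↔ cB y s
          have h0 : ¬ ∃ i ∈ y, x < t i := by
            rintro ⟨i, hi, hxi⟩
            rw [ht i (Finset.mem_union_right _ hi)] at hxi
            exact absurd (((hw1 i hi).trans hw').trans hx) (not_le.2 hxi)
          have hst : ∀ i ∈ ΦB y s, t i = s i := fun i hi => ht i (Finset.mem_union_left _ hi)
          refine iff_of_true (Or.inr ⟨h0, Or.inl ⟨(cB_congr y s t hst).2 ⟨w0, hw0⟩, Or.inl ?_⟩⟩)
            ⟨w0, hw0⟩
          rw [hΦB' y s t hst]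
          exact (hw0.mono (hKBm y _ _ (hw.trans hx))).congr hst
      · obtain ⟨w0, hw0⟩ : ∃ w, Miss (HB y w) (ΦB y s) s := by
          rcases hΦB y s with h | h
          · exact h
          · exact absurd h hc
        obtain ⟨w, hw, hw'⟩ := exists_ge w0 w1
        refine ⟨nB y w, isOpen_nB _ _, Or.inl rfl, ΦB y s ∪ y, ?_⟩
        rintro z' (rfl | ⟨x, hx, rfl⟩) t ht
        · exact cB_congr y s t fun i hi => ht i (Finset.mem_union_left _ hi)
        · change χE x y t ↔ cB y s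
          have h0 : ¬ ∃ i ∈ y, x < t i := by
            rintro ⟨i, hi, hxi⟩
            rw [ht i (Finset.mem_union_right _ hi)] at hxi
            exact absurd (((hw1 i hi).trans hw').trans hx) (not_le.2 hxi)
          have hst : ∀ i ∈ ΦB y s, t i = s i := fun i hi => ht i (Finset.mem_union_left _ hi)
          have hct : ¬ cB y t := fun h => hc ((cB_congr y s t hst).1 h)
          have hm : Miss (HB y x) (ΦB y t) t := by
            rw [hΦB' y s t hst]
            exact (hw0.mono (hHBm y _ _ (hw.trans hx))).congr hst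
          refine iff_of_false ?_ hc
          rintro (h | ⟨-, h | h⟩)
          · exact h0 h.1
          · exact hct h.1
          · exact h.2.1 hm
    | E x y =>
      refine ⟨{E x y}, isOpen_E _ _, rfl, y ∪ ΦB y s ∪ ΦE x y s, ?_⟩
      rintro z' rfl t ht
      change χE x y t ↔ χE x y s
      have h1 : ∀ i ∈ y, t i = s i := fun i hi => ht i (by simp [hi])
      have h2 : ∀ i ∈ ΦB y s, t i = s i := fun i hi => ht i (by simp [hi])
      have h3 : ∀ i ∈ ΦE x y s, t i = s i := fun i hi => ht i (by simp [hi])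
      have e1 : (∃ i ∈ y, x < t i) ↔ (∃ i ∈ y, x < s i) := by
        refine exists_congr fun i => ⟨fun h => ⟨h.1, ?_⟩, fun h => ⟨h.1, ?_⟩⟩
        · rw [← h1 i h.1]; exact h.2
        · rw [h1 i h.1]; exact h.2
      have e2 : Miss (KB y x) (ΦB y t) t ↔ Miss (KB y x) (ΦB y s) s := by
        rw [hΦB' y s t h2]; exact miss_iff h2
      have e3 : Miss (HB y x) (ΦB y t) t ↔ Miss (HB y x) (ΦB y s) s := by
        rw [hΦB' y s t h2]; exact miss_iff h2
      simp only [hχE]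
      rw [e1, e2, e3, Q1_congr x y s t h1, Q0_congr x y s t h1, cE_congr x y s t h3,
        cB_congr y s t h2]

theorem normal_DN : NormalSpace DN := by
  refine ⟨fun H₀ K₀ hH₀ hK₀ hdisj => ?_⟩
  have hcl : ∀ (C : Set DN), IsClosed C → ∀ z s, (z, s) ∈ DN →
      (z, s) ∉ ((↑) '' C : Set (Z × (I → S))) → ∃ V : Set Z, IsOpen V ∧ z ∈ V ∧ ∃ a : Finset I,
      ∀ z' ∈ V, ∀ t ∈ cyl a s, (z', t) ∉ ((↑) '' C : Set (Z × (I → S))) := by
    intro C hC z s hzs hnC
    have h1 : (⟨(z, s), hzs⟩ : DN) ∈ Cᶜ := fun h => hnC ⟨_, h, rfl⟩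
    obtain ⟨O, hO, hOC⟩ := isOpen_induced_iff.1 hC.isOpen_compl
    have h2 : (z, s) ∈ O := by
      have : (⟨(z, s), hzs⟩ : DN) ∈ Subtype.val ⁻¹' O := by rw [hOC]; exact h1
      exact this
    obtain ⟨V, hV, hzV, a, hsub⟩ := exists_prod (hO.mem_nhds h2)
    refine ⟨V, hV, hzV, a, fun z' hz' t ht => ?_⟩
    rintro ⟨d, hd, hdeq⟩
    have h3 : d ∈ Subtype.val ⁻¹' O := by
      change (d : Z × (I → S)) ∈ O
      rw [hdeq]
      exact hsub ⟨hz', ht⟩
    rw [hOC] at h3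
    exact h3 hd
  obtain ⟨χ, h1, h2, h3⟩ := colour ((↑) '' H₀) ((↑) '' K₀) (by rintro _ ⟨d, -, rfl⟩; exact d.2)
    (by rintro _ ⟨d, -, rfl⟩; exact d.2) (by
      rintro p ⟨d, hd, rfl⟩ ⟨d', hd', h⟩
      rw [Subtype.coe_inj] at h
      rw [h] at hd'
      exact Set.disjoint_left.1 hdisj hd hd') (hcl _ hH₀) (hcl _ hK₀)
  have hop : ∀ (P : Prop → Prop), IsOpen {d : DN | P (χ (d : Z × (I → S)).1 (d : Z × (I → S)).2)} := by
    intro P
    rw [isOpen_iff_mem_nhds]
    rintro ⟨⟨z, s⟩, hzs⟩ hd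
    obtain ⟨V, hV, hzV, a, ha⟩ := h3 z s hzs
    have h4 : V ×ˢ cyl a s ∈ 𝓝 ((z, s) : Z × (I → S)) := prod_mem hV hzV a le_rfl
    have h5 : (Subtype.val ⁻¹' (V ×ˢ cyl a s) : Set DN) ∈ 𝓝 (⟨(z, s), hzs⟩ : DN) :=
      continuous_subtype_val.continuousAt.preimage_mem_nhds h4
    refine mem_of_superset h5 ?_
    rintro ⟨⟨z', t⟩, hzt⟩ ⟨hz', ht⟩
    have h6 : χ z' t ↔ χ z s := ha z' hz' t ht
    change P (χ z' t)
    rw [propext h6]
    exact hd
  refine ⟨{d | χ (d : Z × (I → S)).1 (d : Z × (I → S)).2},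
    {d | ¬ χ (d : Z × (I → S)).1 (d : Z × (I → S)).2}, hop fun p => p, hop fun p => ¬ p, ?_, ?_, ?_⟩
  · intro d hd
    exact h1 _ _ ⟨d, hd, rfl⟩
  · intro d hd
    exact h2 _ _ ⟨d, hd, rfl⟩
  · rw [Set.disjoint_left]
    exact fun d hd hd' => hd' hd

/-- `DN` fills the countable subproducts. -/
lemma fills_DN (z : Z) {J : Set I} (hJ : J.Countable) (r : I → S) :
    ∃ s, (z, s) ∈ DN ∧ ∀ i ∈ J, s i = r i := by
  classical
  refine ⟨fun i => if i ∈ J then r i else base z, ?_, fun i hi => if_pos hi⟩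
  refine mem_DN.2 (hJ.mono fun i hi => ?_)
  by_contra hcon
  exact hi (if_neg hcon)

end Pool.Agent.Q151.Plank
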