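import Pool.Agent.Q151.Plank.Base

/-!
# Separating in `Σ`-products of discrete spaces
-/

open Set

namespace Pool.Agent.Q151.Plank

section stage

variable {I S : Type*}

open Classical in
/-- the stages of the process -/
noncomputable def stage (τ : Finset I → (I → S) → ℕ → I) (s : I → S) : ℕ → Finset I
  | n => (Finset.univ : Finset (Fin n)).biUnion
      (fun m => stage τ s m ∪ (Finset.range n).image (τ (stage τ s m) s))
termination_by n => n
decreasing_by all_goals exact m.2

variable {τ : Finset I → (I → S) → ℕ → I}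

lemma stage_lt {s : I → S} {m n : ℕ} (h : m < n) : stage τ s m ⊆ stage τ s n := by
  classical
  intro i hi
  rw [stage]
  refine Finset.mem_biUnion.2 ⟨⟨m, h⟩, Finset.mem_univ _, ?_⟩
  exact Finset.mem_union_left _ hi

lemma stage_mono (s : I → S) : Monotone (stage τ s) := by
  intro m n h
  rcases h.eq_or_lt with h | h
  · rw [h]
  · exact stage_lt h

lemma stage_mem (s : I → S) (n j : ℕ) : ∃ m, τ (stage τ s n) s j ∈ stage τ s m := by
  classical
  refine ⟨max n j + 1, ?_⟩
  rw [stage]
  refine Finset.mem_biUnion.2 ⟨⟨n, Nat.lt_succ_of_le (le_max_left _ _)⟩, Finset.mem_univ _, ?_⟩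
  refine Finset.mem_union_right _ (Finset.mem_image.2 ⟨j, ?_, rfl⟩)
  exact Finset.mem_range.2 (Nat.lt_succ_of_le (le_max_right _ _))

lemma stage_eq (hτ : ∀ F s t, (∀ i ∈ F, t i = s i) → τ F t = τ F s) {s t : I → S} {n : ℕ}
    (h : ∀ i ∈ stage τ s n, t i = s i) : ∀ m ≤ n, stage τ t m = stage τ s m := by
  classical
  intro m
  induction m using Nat.strong_induction_on with
  | _ m ih =>
    intro hm
    rw [stage, stage]
    refine Finset.biUnion_congr rfl fun k _ => ?_
    have h1 := ih k k.2 (k.2.le.trans hm)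
    rw [h1, hτ (stage τ s k) s t fun i hi => h i (stage_mono s (k.2.le.trans hm) hi)]

theorem process (good : Finset I → (I → S) → Prop)
    (hgood : ∀ F s t, (∀ i ∈ F, t i = s i) → good F s → good F t)
    (hτ : ∀ F s t, (∀ i ∈ F, t i = s i) → τ F t = τ F s)
    (hlim : ∀ s (F : ℕ → Finset I), Monotone F → (∀ n, ¬ good (F n) s) →
      (∀ n j, ∃ m, τ (F n) s j ∈ F m) → False) :
    ∃ Φ : (I → S) → Finset I, (∀ s, good (Φ s) s) ∧
      ∀ s t, (∀ i ∈ Φ s, t i = s i) → Φ t = Φ s := by
  classical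
  have hex : ∀ s, ∃ n, good (stage τ s n) s := by
    intro s
    by_contra hcon
    push Not at hcon
    exact hlim s (stage τ s) (stage_mono s) hcon (stage_mem s)
  refine ⟨fun s => stage τ s (Nat.find (hex s)), fun s => Nat.find_spec (hex s), ?_⟩
  intro s t h
  have h1 : ∀ m ≤ Nat.find (hex s), stage τ t m = stage τ s m := stage_eq hτ h
  have h2 : ∀ m ≤ Nat.find (hex s), (∀ i ∈ stage τ s m, t i = s i) := fun m hm i hi =>
    h i (stage_mono s hm hi)
  have h3 : Nat.find (hex t) = Nat.find (hex s) := by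
    rw [Nat.find_eq_iff]
    refine ⟨?_, fun m hm hg => ?_⟩
    · rw [h1 _ le_rfl]
      exact hgood _ _ _ h (Nat.find_spec (hex s))
    · rw [h1 _ hm.le] at hg
      exact Nat.find_min (hex s) hm (hgood _ _ _ (fun i hi => (h2 m hm.le i hi).symm) hg)
  change stage τ t (Nat.find (hex t)) = stage τ s (Nat.find (hex s))
  rw [h3, h1 _ le_rfl]

end stage

/-- the set `H w` of functions misses the cylinder of `s` over `F` -/
def Miss (H : Set (I → S)) (F : Finset I) (s : I → S) : Prop :=
  ∀ h ∈ H, ¬ ∀ i ∈ F, h i = s i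

lemma Miss.congr {H : Set (I → S)} {F : Finset I} {s t : I → S} (hst : ∀ i ∈ F, t i = s i)
    (h : Miss H F s) : Miss H F t := by
  intro x hx hxt
  exact h x hx fun i hi => (hxt i hi).trans (hst i hi)

lemma miss_iff {H : Set (I → S)} {F : Finset I} {s t : I → S} (hst : ∀ i ∈ F, t i = s i) :
    Miss H F t ↔ Miss H F s :=
  ⟨fun h => h.congr fun i hi => (hst i hi).symm, fun h => h.congr hst⟩

lemma Miss.mono {H H' : Set (I → S)} {F : Finset I} {s : I → S} (h : Miss H F s)
    (hs : H' ⊆ H) : Miss H' F s := fun x hx => h x (hs hx)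

lemma Miss.anti {H : Set (I → S)} {F F' : Finset I} {s : I → S} (h : Miss H F s)
    (hs : F ⊆ F') : Miss H F' s := fun x hx h' => h x hx fun i hi => h' i (hs hi)

/-- Separation: `H` and `K` decreasing families of subsets of the `Σ`-product with base point
`c`. -/
theorem sep (c : S) (H K : S → Set (I → S)) (hH : ∀ w w', w ≤ w' → H w' ⊆ H w)
    (hK : ∀ w w', w ≤ w' → K w' ⊆ K w) (hHc : ∀ w, ∀ h ∈ H w, {i | h i ≠ c}.Countable)
    (hKc : ∀ w, ∀ h ∈ K w, {i | h i ≠ c}.Countable)
    (hHK : ∀ s : I → S, {i | s i ≠ c}.Countable →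
      (∃ w F, Miss (H w) F s) ∨ (∃ w F, Miss (K w) F s)) :
    ∃ Φ : (I → S) → Finset I, (∀ s, (∃ w, Miss (H w) (Φ s) s) ∨ (∃ w, Miss (K w) (Φ s) s)) ∧
      ∀ s t, (∀ i ∈ Φ s, t i = s i) → Φ t = Φ s := by
  classical
  set good : Finset I → (I → S) → Prop := fun F s =>
    (∃ w, Miss (H w) F s) ∨ (∃ w, Miss (K w) F s) with hgdef
  have hgood : ∀ F s t, (∀ i ∈ F, t i = s i) → good F s → good F t := by
    intro F s t hst h
    rcases h with ⟨w, h⟩ | ⟨w, h⟩
    · exact Or.inl ⟨w, h.congr hst⟩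
    · exact Or.inr ⟨w, h.congr hst⟩
  -- uniform supports
  have key : ∀ (G : S → Set (I → S)) (_ : ∀ w w', w ≤ w' → G w' ⊆ G w)
      (_ : ∀ w, ∀ h ∈ G w, {i | h i ≠ c}.Countable) (F : Finset I) (s : I → S),
      (∀ w, ¬ Miss (G w) F s) → ∃ T : Set I, T.Countable ∧ ∀ w, ∃ h ∈ G w,
        (∀ i ∈ F, h i = s i) ∧ {i | h i ≠ c} = T := by
    intro G hG hGc F s hn
    have h1 : ∀ w, ∃ h ∈ G w, ∀ i ∈ F, h i = s i := by
      intro w
      have := hn w
      simp only [Miss] at this
      push Not at this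
      exact this
    choose h hhG hhs using h1
    obtain ⟨T, hT⟩ := S_pigeon (fun w => {i | h w i ≠ c})
    refine ⟨T, ?_, fun w => ?_⟩
    · obtain ⟨w', -, hw'⟩ := hT s₀
      rw [← hw']
      exact hGc _ _ (hhG w')
    · obtain ⟨w', hww', hw'⟩ := hT w
      exact ⟨h w', hG _ _ hww' (hhG w'), hhs w', hw'⟩
  have hex : ∀ (F : Finset I) (s : I → S), ∃ e : ℕ → I, ¬ good F s →
      (∀ w, ∃ h ∈ H w, (∀ i ∈ F, h i = s i) ∧ {i | h i ≠ c} ⊆ range e) ∧
      (∀ w, ∃ h ∈ K w, (∀ i ∈ F, h i = s i) ∧ {i | h i ≠ c} ⊆ range e) := by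
    intro F s
    by_cases hg : good F s
    · exact ⟨fun _ => 0, fun h => absurd hg h⟩
    · have hg' := hg
      simp only [hgdef] at hg'
      push Not at hg'
      obtain ⟨T, hTc, hT⟩ := key H hH hHc F s hg'.1
      obtain ⟨T', hTc', hT'⟩ := key K hK hKc F s hg'.2
      obtain ⟨e, he⟩ := ((hTc.union hTc').insert (0 : I)).exists_eq_range (insert_nonempty _ _)
      refine ⟨e, fun _ => ⟨fun w => ?_, fun w => ?_⟩⟩
      · obtain ⟨h, hh, hs, hsup⟩ := hT w
        refine ⟨h, hh, hs, ?_⟩
        rw [hsup, ← he]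
        exact subset_union_left.trans (subset_insert _ _)
      · obtain ⟨h, hh, hs, hsup⟩ := hT' w
        refine ⟨h, hh, hs, ?_⟩
        rw [hsup, ← he]
        exact subset_union_right.trans (subset_insert _ _)
  choose e he using hex
  set ext : Finset I → (I → S) → (I → S) := fun F s i => if i ∈ F then s i else c with hext
  have hext1 : ∀ F s, ∀ i ∈ F, ext F s i = s i := by
    intro F s i hi
    simp only [hext, if_pos hi]
  refine process (τ := fun F s => e F (ext F s)) good hgood ?_ ?_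
  · intro F s t hst
    have : ext F t = ext F s := by
      funext i
      simp only [hext]
      split_ifs with h
      · exact hst i h
      · rfl
    simp only [this]
  · intro s F hF hng hlim
    -- the limit point
    set s' : I → S := fun i => if ∃ n, i ∈ F n then s i else c with hs'
    have hs'c : {i | s' i ≠ c}.Countable := by
      refine (countable_iUnion fun n => (F n).countable_toSet).mono ?_
      intro i hi
      by_contra hcon
      refine hi ?_
      simp only [hs']
      rw [if_neg]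
      rintro ⟨n, hn⟩
      exact hcon (mem_iUnion.2 ⟨n, hn⟩)
    have hlim' : ∀ n j, ∃ m, e (F n) (ext (F n) s) j ∈ F m := hlim
    have hng' : ∀ n, ¬ good (F n) (ext (F n) s) := fun n hn =>
      hng n (hgood _ _ _ (fun i hi => (hext1 _ _ i hi).symm) hn)
    have hfin : ∀ G : Finset I, ∃ n, ∀ i ∈ G, (∃ m, i ∈ F m) → i ∈ F n := by
      intro G
      induction G using Finset.induction_on with
      | empty => exact ⟨0, fun i hi => absurd hi (Finset.notMem_empty _)⟩
      | insert a G _ ih =>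
        obtain ⟨n, hn⟩ := ih
        by_cases ha : ∃ m, a ∈ F m
        · obtain ⟨m, hm⟩ := ha
          refine ⟨max n m, fun i hi hex => ?_⟩
          rcases Finset.mem_insert.1 hi with h | h
          · rw [h]; exact hF (le_max_right _ _) hm
          · exact hF (le_max_left _ _) (hn i h hex)
        · refine ⟨n, fun i hi hex => ?_⟩
          rcases Finset.mem_insert.1 hi with h | h
          · rw [h] at hex; exact absurd hex ha
          · exact hn i h hex
    have hagree : ∀ (G : Finset I) (n : ℕ), (∀ i ∈ G, (∃ m, i ∈ F m) → i ∈ F n) →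
        ∀ h : I → S, (∀ i ∈ F n, h i = ext (F n) s i) →
        {i | h i ≠ c} ⊆ range (e (F n) (ext (F n) s)) → ∀ i ∈ G, h i = s' i := by
      intro G n hn h hh hsup i hi
      by_cases hi' : ∃ m, i ∈ F m
      · rw [hh i (hn i hi hi'), hext1 _ _ _ (hn i hi hi')]
        simp only [hs', if_pos hi']
      · simp only [hs', if_neg hi']
        by_contra hne
        obtain ⟨j, hj⟩ := hsup hne
        obtain ⟨m, hm⟩ := hlim' n j
        rw [hj] at hm
        exact hi' ⟨m, hm⟩
    rcases hHK s' hs'c with ⟨w, G, hG⟩ | ⟨w, G, hG⟩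
    · obtain ⟨n, hn⟩ := hfin G
      obtain ⟨h, hh, hs, hsup⟩ := (he (F n) (ext (F n) s) (hng' n)).1 w
      exact hG h hh (hagree G n hn h hs hsup)
    · obtain ⟨n, hn⟩ := hfin G
      obtain ⟨h, hh, hs, hsup⟩ := (he (F n) (ext (F n) s) (hng' n)).2 w
      exact hG h hh (hagree G n hn h hs hsup)

end Pool.Agent.Q151.Plank
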