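import Pool.Agent.Q151.Plank.NormalD
import Pool.Agent.Q151.Fill.Basic

/-!
# From `M × S^I` to an honest product indexed by `Option I`
-/

open Set Filter Topology

namespace Pool.Agent.Q151.Plank

open Pool.Agent.Q151.Fill (FillsCountable)

/-- the factors: `M` and copies of `S` -/
@[reducible] def XO (M : Type) : Option I → Type
  | none => M
  | some _ => S

instance (M : Type) [t : TopologicalSpace M] : ∀ j, TopologicalSpace (XO M j)
  | none => t
  | some _ => inferInstanceAs (TopologicalSpace S)

lemma t1_XO (M : Type) [TopologicalSpace M] [T1Space M] : ∀ j, T1Space (XO M j)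
  | none => inferInstanceAs (T1Space M)
  | some _ => inferInstanceAs (T1Space S)

/-- the homeomorphism -/
def homeo (M : Type) [TopologicalSpace M] : (∀ j, XO M j) ≃ₜ M × (I → S) where
  toFun f := (f none, fun i => f (some i))
  invFun p := fun j => match j with
    | none => p.1
    | some i => p.2 i
  left_inv f := by
    funext j
    cases j <;> rfl
  right_inv p := rfl
  continuous_toFun := by
    refine (continuous_apply none).prodMk (continuous_pi fun i => continuous_apply (some i))
  continuous_invFun := by
    refine continuous_pi fun j => ?_
    cases j with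
    | none => exact continuous_fst
    | some i => exact (continuous_apply i).comp continuous_snd

lemma fills_of {M : Type} [TopologicalSpace M] [Inhabited M] {D : Set (M × (I → S))}
    (h : ∀ (z : M) {J : Set I} (_ : J.Countable) (r : I → S), ∃ s, (z, s) ∈ D ∧ ∀ i ∈ J, s i = r i) :
    FillsCountable ((homeo M) ⁻¹' D) := by
  classical
  intro J _ hJ x
  set z : M := if h : none ∈ J then x ⟨none, h⟩ else default with hz
  set r : I → S := fun i => if h : some i ∈ J then x ⟨some i, h⟩ else s₀ with hr
  obtain ⟨s, hs, hsr⟩ := h z (J := {i | some i ∈ J})
    (hJ.preimage (Option.some_injective I)) r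
  refine ⟨(homeo M).symm (z, s), ?_, ?_⟩
  · rw [mem_preimage, Homeomorph.apply_symm_apply]
    exact hs
  · rintro ⟨j, hj⟩
    cases j with
    | none =>
      change z = _
      simp only [hz, dif_pos hj]
    | some i =>
      change s i = _
      rw [hsr i hj]
      simp only [hr, dif_pos hj]

theorem normal_transfer {M : Type} [TopologicalSpace M] (D : Set (M × (I → S)))
    [NormalSpace D] : NormalSpace ((homeo M) ⁻¹' D) :=
  ((homeo M).sets (s := (homeo M) ⁻¹' D) (t := D) rfl).isClosedEmbedding.normalSpace

end Pool.Agent.Q151.Plank
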