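import Pool.Agent.Q151.Plank.Process

/-!
# The plank `Z`
-/

open Set Filter Topology

namespace Pool.Agent.Q151.Plank

/-- The plank: `A x` for `x : S`, `B y` for `y` a finite set of indices, isolated points `E x y`. -/
inductive Z : Type
  | A (x : S) : Z
  | B (y : Finset I) : Z
  | E (x : S) (y : Finset I) : Z

namespace Z

noncomputable instance : Inhabited Z := ⟨A s₀⟩

instance : TopologicalSpace Z where
  IsOpen U := (∀ x, A x ∈ U → ∃ a : Finset I, ∀ y, a ⊆ y → E x y ∈ U) ∧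
    (∀ y, B y ∈ U → ∃ w : S, ∀ x, w ≤ x → E x y ∈ U)
  isOpen_univ := ⟨fun _ _ => ⟨∅, fun _ _ => trivial⟩, fun _ _ => ⟨s₀, fun _ _ => trivial⟩⟩
  isOpen_inter U V hU hV := by
    classical
    refine ⟨fun x hx => ?_, fun y hy => ?_⟩
    · obtain ⟨a, ha⟩ := hU.1 x hx.1
      obtain ⟨b, hb⟩ := hV.1 x hx.2
      exact ⟨a ∪ b, fun y h => ⟨ha y (Finset.union_subset_left h), hb y (Finset.union_subset_right h)⟩⟩
    · obtain ⟨a, ha⟩ := hU.2 y hy.1
      obtain ⟨b, hb⟩ := hV.2 y hy.2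
      exact ⟨max a b, fun x h => ⟨ha x (le_trans (le_max_left _ _) h),
        hb x (le_trans (le_max_right _ _) h)⟩⟩
  isOpen_sUnion 𝒰 h𝒰 := by
    refine ⟨fun x hx => ?_, fun y hy => ?_⟩
    · obtain ⟨U, hU, hxU⟩ := hx
      obtain ⟨a, ha⟩ := (h𝒰 U hU).1 x hxU
      exact ⟨a, fun y h => ⟨U, hU, ha y h⟩⟩
    · obtain ⟨U, hU, hyU⟩ := hy
      obtain ⟨a, ha⟩ := (h𝒰 U hU).2 y hyU
      exact ⟨a, fun x h => ⟨U, hU, ha x h⟩⟩

lemma isOpen_iff {U : Set Z} : IsOpen U ↔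
    (∀ x, A x ∈ U → ∃ a : Finset I, ∀ y, a ⊆ y → E x y ∈ U) ∧
    (∀ y, B y ∈ U → ∃ w : S, ∀ x, w ≤ x → E x y ∈ U) := Iff.rfl

/-- basic neighbourhood of `A x` -/
def nA (x : S) (a : Finset I) : Set Z := {z | z = A x ∨ ∃ y, a ⊆ y ∧ z = E x y}

/-- basic neighbourhood of `B y` -/
def nB (y : Finset I) (w : S) : Set Z := {z | z = B y ∨ ∃ x, w ≤ x ∧ z = E x y}

lemma isOpen_nA (x : S) (a : Finset I) : IsOpen (nA x a) := by
  refine isOpen_iff.2 ⟨fun x' hx' => ?_, fun y hy => ?_⟩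
  · rcases hx' with h | ⟨y, -, h⟩
    · cases h
      exact ⟨a, fun y hy => Or.inr ⟨y, hy, rfl⟩⟩
    · cases h
  · rcases hy with h | ⟨y, -, h⟩ <;> cases h

lemma isOpen_nB (y : Finset I) (w : S) : IsOpen (nB y w) := by
  refine isOpen_iff.2 ⟨fun x hx => ?_, fun y' hy' => ?_⟩
  · rcases hx with h | ⟨y, -, h⟩ <;> cases h
  · rcases hy' with h | ⟨x, -, h⟩
    · cases h
      exact ⟨w, fun x hx => Or.inr ⟨x, hx, rfl⟩⟩
    · cases h

lemma isOpen_E (x : S) (y : Finset I) : IsOpen ({E x y} : Set Z) := by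
  refine isOpen_iff.2 ⟨fun x hx => ?_, fun y' hy' => ?_⟩
  · cases hx
  · cases hy'

lemma isClosed_nA (x : S) (a : Finset I) : IsClosed (nA x a) := by
  classical
  refine isOpen_compl_iff.1 (isOpen_iff.2 ⟨fun x' hx' => ?_, fun y hy => ?_⟩)
  · refine ⟨∅, fun y _ h => ?_⟩
    rcases h with h | ⟨y, hy, h⟩
    · cases h
    · cases h
      exact hx' (Or.inl rfl)
  · obtain ⟨w, hw⟩ := S_exists_gt x
    refine ⟨w, fun x' hx' h => ?_⟩
    rcases h with h | ⟨y, hy, h⟩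
    · cases h
    · cases h
      exact absurd hw (not_lt.2 hx')

lemma exists_notMem (y : Finset I) : ∃ i : I, i ∉ y := Infinite.exists_notMem_finset y

lemma isClosed_nB (y : Finset I) (w : S) : IsClosed (nB y w) := by
  classical
  refine isOpen_compl_iff.1 (isOpen_iff.2 ⟨fun x hx => ?_, fun y' hy' => ?_⟩)
  · obtain ⟨i, hi⟩ := exists_notMem y
    refine ⟨{i}, fun y' hy' h => ?_⟩
    rcases h with h | ⟨y, hy, h⟩
    · cases h
    · cases h
      exact hi (hy' (Finset.mem_singleton_self i))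
  · refine ⟨s₀, fun x _ h => ?_⟩
    rcases h with h | ⟨y, hy, h⟩
    · cases h
    · cases h
      exact hy' (Or.inl rfl)

instance : T1Space Z := by
  refine ⟨fun z => isOpen_compl_iff.1 ?_⟩
  refine isOpen_iff.2 ⟨fun x hx => ?_, fun y hy => ?_⟩
  · cases z with
    | A x' => exact ⟨∅, fun y _ h => by cases h⟩
    | B y' => exact ⟨∅, fun y _ h => by cases h⟩
    | E x' y' =>
      obtain ⟨i, hi⟩ := exists_notMem y'
      refine ⟨{i}, fun y h h' => ?_⟩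
      cases h'
      exact hi (h (Finset.mem_singleton_self i))
  · cases z with
    | A x' => exact ⟨s₀, fun y _ h => by cases h⟩
    | B y' => exact ⟨s₀, fun y _ h => by cases h⟩
    | E x' y' =>
      obtain ⟨w, hw⟩ := S_exists_gt x'
      refine ⟨w, fun x h h' => ?_⟩
      cases h'
      exact absurd hw (not_lt.2 h)

lemma exists_clopen (z : Z) (U : Set Z) (hU : IsOpen U) (hz : z ∈ U) :
    ∃ V, IsClopen V ∧ z ∈ V ∧ V ⊆ U := by
  cases z with
  | A x =>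
    obtain ⟨a, ha⟩ := hU.1 x hz
    refine ⟨nA x a, ⟨isClosed_nA x a, isOpen_nA x a⟩, Or.inl rfl, ?_⟩
    rintro z (rfl | ⟨y, hy, rfl⟩)
    · exact hz
    · exact ha y hy
  | B y =>
    obtain ⟨a, ha⟩ := hU.2 y hz
    refine ⟨nB y a, ⟨isClosed_nB y a, isOpen_nB y a⟩, Or.inl rfl, ?_⟩
    rintro z (rfl | ⟨y, hy, rfl⟩)
    · exact hz
    · exact ha y hy
  | E x y =>
    refine ⟨{E x y}, ⟨isClosed_singleton, isOpen_E x y⟩, rfl, ?_⟩
    rintro z rfl
    exact hz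

instance : RegularSpace Z := by
  refine RegularSpace.of_exists_mem_nhds_isClosed_subset fun z s hs => ?_
  obtain ⟨U, hUs, hU, hz⟩ := mem_nhds_iff.1 hs
  obtain ⟨V, hV, hzV, hVU⟩ := exists_clopen z U hU hz
  exact ⟨V, hV.isOpen.mem_nhds hzV, hV.isClosed, hVU.trans hUs⟩

theorem not_normal : ¬ NormalSpace Z := by
  intro hn
  have hA : IsClosed (range A) := by
    refine isOpen_compl_iff.1 (isOpen_iff.2 ⟨fun x hx => absurd ⟨x, rfl⟩ hx, fun y _ => ?_⟩)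
    exact ⟨s₀, fun x _ ⟨x', h⟩ => by cases h⟩
  have hB : IsClosed (range B) := by
    refine isOpen_compl_iff.1 (isOpen_iff.2 ⟨fun x _ => ?_, fun x hx => absurd ⟨x, rfl⟩ hx⟩)
    exact ⟨∅, fun x _ ⟨x', h⟩ => by cases h⟩
  have hd : Disjoint (range A) (range B) := by
    rw [Set.disjoint_left]
    rintro z ⟨x, rfl⟩ ⟨y, h⟩
    cases h
  obtain ⟨U, V, hU, hV, hAU, hBV, hUV⟩ := hn.normal _ _ hA hB hd
  choose a ha using fun x => (isOpen_iff.1 hU).1 x (hAU ⟨x, rfl⟩)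
  choose w hw using fun y => (isOpen_iff.1 hV).2 y (hBV ⟨y, rfl⟩)
  obtain ⟨b, hb⟩ := S_bdd w
  exact Set.disjoint_left.1 hUV (ha b (a b) le_rfl) (hw (a b) b (hb _))

end Z

/-- cylinder -/
def cyl (a : Finset I) (s : I → S) : Set (I → S) := {t | ∀ i ∈ a, t i = s i}

instance : TopologicalSpace S := ⊥

instance : DiscreteTopology S := ⟨rfl⟩

lemma isOpen_cyl (a : Finset I) (s : I → S) : IsOpen (cyl a s) := by
  have : cyl a s = ⋂ i ∈ a, (fun t : I → S => t i) ⁻¹' {s i} := by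
    ext t; simp [cyl]
  rw [this]
  exact isOpen_biInter_finset fun i _ => (isOpen_discrete _).preimage (continuous_apply i)

lemma isClosed_cyl (a : Finset I) (s : I → S) : IsClosed (cyl a s) := by
  have : cyl a s = ⋂ i ∈ a, (fun t : I → S => t i) ⁻¹' {s i} := by
    ext t; simp [cyl]
  rw [this]
  exact isClosed_biInter fun i _ => (isClosed_discrete _).preimage (continuous_apply i)

lemma mem_cyl_self (a : Finset I) (s : I → S) : s ∈ cyl a s := fun _ _ => rfl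

lemma exists_cyl {s : I → S} {U : Set (I → S)} (hU : U ∈ 𝓝 s) : ∃ a : Finset I, cyl a s ⊆ U := by
  obtain ⟨V, hVU, hV, hs⟩ := mem_nhds_iff.1 hU
  obtain ⟨a, u, hu, hsub⟩ := isOpen_pi_iff.1 hV s hs
  refine ⟨a, fun t ht => hVU (hsub fun i hi => ?_)⟩
  rw [ht i hi]
  exact (hu i hi).2

lemma exists_prod {X : Type*} [TopologicalSpace X] {z : X} {s : I → S} {U : Set (X × (I → S))}
    (hU : U ∈ 𝓝 (z, s)) : ∃ V : Set X, IsOpen V ∧ z ∈ V ∧ ∃ a : Finset I, V ×ˢ cyl a s ⊆ U := by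
  obtain ⟨V, hV, W, hW, hsub⟩ := mem_nhds_prod_iff.1 hU
  obtain ⟨V', hV'V, hV', hz⟩ := mem_nhds_iff.1 hV
  obtain ⟨a, ha⟩ := exists_cyl hW
  exact ⟨V', hV', hz, a, (prod_mono hV'V ha).trans hsub⟩

lemma prod_mem {X : Type*} [TopologicalSpace X] {z : X} {s : I → S} {U : Set (X × (I → S))}
    {V : Set X} (hV : IsOpen V) (hz : z ∈ V) (a : Finset I) (h : V ×ˢ cyl a s ⊆ U) :
    U ∈ 𝓝 (z, s) :=
  mem_of_superset ((hV.prod (isOpen_cyl a s)).mem_nhds ⟨hz, mem_cyl_self a s⟩) h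

end Pool.Agent.Q151.Plank
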